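import Mathlib

set_option autoImplicit false

namespace Pool.Agent.H.MP_068a93_gt
open Set Filter Topology

lemma exists_avoid (B : Set ℝ) (hB : B.Countable) {a b : ℝ} (hab : a < b) :
    ∃ w, a < w ∧ w < b ∧ w ∉ B := by
  obtain ⟨w, hw1, hw2⟩ := (hB.dense_compl ℝ).inter_open_nonempty (Ioo a b) isOpen_Ioo
    (nonempty_Ioo.2 hab)
  exact ⟨w, hw1.1, hw1.2, hw2⟩

noncomputable def cl (t c : ℝ) : ℝ := max (-c) (min c t)

lemma cl_cases (t : ℝ) {c : ℝ} (hc : 0 ≤ c) :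
    (cl t c = t ∧ -c ≤ t ∧ t ≤ c) ∨ (cl t c = c ∧ c ≤ t) ∨ (cl t c = -c ∧ t ≤ -c) := by
  unfold cl
  rcases le_total t (-c) with h | h
  · right; right
    exact ⟨by rw [min_eq_right (by linarith), max_eq_left h], h⟩
  rcases le_total c t with h' | h'
  · right; left
    exact ⟨by rw [min_eq_left h', max_eq_right (by linarith)], h'⟩
  · left
    exact ⟨by rw [min_eq_right h', max_eq_right h], h, h'⟩

lemma cl_abs (t : ℝ) {c : ℝ} (hc : 0 ≤ c) : |cl t c| ≤ c := by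
  rw [abs_le]
  rcases cl_cases t hc with ⟨e, _, _⟩ | ⟨e, _⟩ | ⟨e, _⟩ <;> rw [e] <;> constructor <;> linarith

lemma cl_abs' (t : ℝ) {c : ℝ} (hc : 0 ≤ c) : |cl t c| ≤ |t| := by
  have h1 := le_abs_self t
  have h2 := neg_abs_le t
  rw [abs_le]
  rcases cl_cases t hc with ⟨e, _, _⟩ | ⟨e, _⟩ | ⟨e, _⟩ <;> rw [e] <;> constructor <;> linarith

lemma cl_self {t c : ℝ} (h : |t| ≤ c) : cl t c = t := by
  rw [abs_le] at h
  unfold cl
  rw [min_eq_right h.2, max_eq_right h.1]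

lemma cl_zero (t : ℝ) : cl t 0 = 0 := by
  have := cl_abs t (le_refl 0)
  exact abs_nonpos_iff.1 this

@[fun_prop]
lemma cl_cont {α : Type} [TopologicalSpace α] {f g : α → ℝ} (hf : Continuous f)
    (hg : Continuous g) : Continuous fun x => cl (f x) (g x) := by
  unfold cl
  fun_prop

lemma exists_lim {X Y : Type} [TopologicalSpace X] [MetricSpace Y] [CompleteSpace Y]
    (f : ℕ → X → Y) (hc : ∀ n, Continuous (f n)) (C : ℝ)
    (h : ∀ n x, dist (f n x) (f (n + 1) x) ≤ C * (1 / 2) ^ n) :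
    ∃ g : X → Y, Continuous g ∧ ∀ x, Tendsto (fun n => f n x) atTop (𝓝 (g x)) := by
  have h1 : ∀ x, ∃ a, Tendsto (fun n => f n x) atTop (𝓝 a) := fun x =>
    cauchySeq_tendsto_of_complete
      (cauchySeq_of_le_geometric (1 / 2) C (by norm_num) (fun n => h n x))
  choose g hg using h1
  refine ⟨g, ?_, hg⟩
  have h2 : TendstoUniformly f g atTop := by
    rw [Metric.tendstoUniformly_iff]
    intro ε hε
    have h3 : Tendsto (fun n : ℕ => C * (1 / 2 : ℝ) ^ n / (1 - 1 / 2)) atTop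
        (𝓝 (C * 0 / (1 - 1 / 2))) :=
      ((tendsto_pow_atTop_nhds_zero_of_lt_one (by norm_num) (by norm_num)).const_mul C).div_const _
    rw [mul_zero, zero_div] at h3
    filter_upwards [h3.eventually (gt_mem_nhds hε)] with n hn x
    rw [dist_comm]
    exact (dist_le_of_le_geometric_of_tendsto (1 / 2) C (by norm_num) (fun n => h n x)
      (hg x) n).trans_lt hn
  exact h2.continuous (Frequently.of_forall hc)

lemma bump {X : Type} [MetricSpace X] [CompactSpace X] (K : Set X) (hK : IsClosed K) (Q : X → ℝ → Prop)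
    (hmono : ∀ z d d', Q z d → 0 < d' → d' ≤ d → Q z d')
    (hloc : ∀ z0 ∉ K, ∃ d > 0, ∀ᶠ z in 𝓝 z0, Q z d) :
    ∃ ρ : X → ℝ, Continuous ρ ∧ (∀ x, 0 ≤ ρ x) ∧ (∀ x, ρ x ≤ 1) ∧
      (∀ x ∈ K, ρ x = 0) ∧ (∀ x ∉ K, 0 < ρ x) ∧ ∀ x ∉ K, Q x (ρ x) := by
  have h1 : ∀ z0 : X, ∃ r > 0, ∃ d > 0, z0 ∉ K → ∀ z, dist z z0 < r → z ∉ K ∧ Q z d := by
    intro z0
    by_cases hz : z0 ∈ K
    · exact ⟨1, one_pos, 1, one_pos, fun h => absurd hz h⟩
    obtain ⟨d, hd, hev⟩ := hloc z0 hz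
    have h2 : ∀ᶠ z in 𝓝 z0, z ∉ K := hK.isOpen_compl.mem_nhds hz
    obtain ⟨r, hr, h3⟩ := Metric.eventually_nhds_iff.1 (h2.and hev)
    exact ⟨r, hr, d, hd, fun _ z hz' => h3 hz'⟩
  choose r hr d hd h1 using h1
  obtain ⟨t, ht, htc, hcov⟩ := TopologicalSpace.countable_cover_nhdsWithin
    (f := fun z => Metric.ball z (r z)) (s := Kᶜ)
    (fun z _ => mem_nhdsWithin_of_mem_nhds (Metric.ball_mem_nhds z (hr z)))
  rcases t.eq_empty_or_nonempty with rfl | hne
  · have hall : ∀ x, x ∈ K := by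
      intro x
      by_contra hx
      simpa using hcov hx
    exact ⟨fun _ => 0, continuous_const, fun _ => le_rfl, fun _ => zero_le_one,
      fun _ _ => rfl, fun x hx => absurd (hall x) hx, fun x hx => absurd (hall x) hx⟩
  obtain ⟨c, hc⟩ := htc.exists_eq_range hne
  have hcK : ∀ j, c j ∉ K := fun j => ht (hc ▸ mem_range_self j)
  set φ : ℕ → X → ℝ := fun j x =>
    min (min (d (c j)) ((1 / 2) ^ j)) (max 0 (r (c j) - dist x (c j))) with hφ
  have hφ0 : ∀ j x, 0 ≤ φ j x := fun j x =>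
    le_min (le_min (hd _).le (by positivity)) (le_max_left _ _)
  have hφ1 : ∀ j x, φ j x ≤ (1 / 2) ^ j := fun j x => (min_le_left _ _).trans (min_le_right _ _)
  have hφ2 : ∀ j x, φ j x ≤ 1 := fun j x =>
    (hφ1 j x).trans (pow_le_one₀ (by norm_num) (by norm_num))
  have hφd : ∀ j x, φ j x ≤ d (c j) := fun j x => (min_le_left _ _).trans (min_le_left _ _)
  have hφpos : ∀ j x, 0 < φ j x ↔ dist x (c j) < r (c j) := by
    intro j x
    simp only [hφ, lt_min_iff, lt_max_iff, lt_irrefl, false_or, sub_pos]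
    exact ⟨fun h => h.2, fun h => ⟨⟨hd _, by positivity⟩, h⟩⟩
  have hφL : ∀ j x y, φ j x ≤ φ j y + dist x y := by
    intro j x y
    have e1 := dist_triangle y x (c j)
    have e2 := dist_comm x y
    have e3 : (0 : ℝ) ≤ dist x y := dist_nonneg
    simp only [hφ]
    generalize min (d (c j)) ((1 / 2 : ℝ) ^ j) = m
    rcases min_cases m (max 0 (r (c j) - dist y (c j))) with ⟨e, _⟩ | ⟨e, _⟩
    · rw [e]
      linarith [min_le_left m (max 0 (r (c j) - dist x (c j)))]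
    · rw [e]
      refine (min_le_right _ _).trans (max_le ?_ ?_)
      · linarith [le_max_left 0 (r (c j) - dist y (c j))]
      · linarith [le_max_right 0 (r (c j) - dist y (c j))]
  have hbdd : ∀ x, BddAbove (range fun j => φ j x) := fun x =>
    ⟨1, by rintro _ ⟨j, rfl⟩; exact hφ2 j x⟩
  set ρ : X → ℝ := fun x => ⨆ j, φ j x with hρ
  have hle : ∀ j x, φ j x ≤ ρ x := fun j x => le_ciSup (hbdd x) j
  have hatt : ∀ x, ∃ j, ρ x = φ j x := by
    intro x
    by_cases h0 : ∀ j, φ j x ≤ 0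
    · exact ⟨0, le_antisymm ((ciSup_le h0).trans (hφ0 0 x)) (hle 0 x)⟩
    push Not at h0
    obtain ⟨j0, hj0⟩ := h0
    obtain ⟨N, hN⟩ := exists_pow_lt_of_lt_one hj0 (show (1 / 2 : ℝ) < 1 by norm_num)
    obtain ⟨j, -, hj⟩ := (Finset.range (N + j0 + 1)).exists_max_image (fun j => φ j x)
      ⟨0, by simp⟩
    refine ⟨j, le_antisymm (ciSup_le fun i => ?_) (hle j x)⟩
    by_cases hi : i < N + j0 + 1
    · exact hj i (Finset.mem_range.2 hi)
    · have e1 : ((1 / 2 : ℝ)) ^ i ≤ (1 / 2) ^ N :=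
        pow_le_pow_of_le_one (by norm_num) (by norm_num) (by omega)
      have e2 := hj j0 (Finset.mem_range.2 (by omega))
      linarith [hφ1 i x]
  have hpos : ∀ x ∉ K, 0 < ρ x := by
    intro x hx
    have := hcov hx
    simp only [mem_iUnion] at this
    obtain ⟨z, hz, hxz⟩ := this
    rw [hc] at hz
    obtain ⟨j, rfl⟩ := hz
    exact ((hφpos j x).2 hxz).trans_le (hle j x)
  refine ⟨ρ, ?_, fun x => (hφ0 0 x).trans (hle 0 x), fun x => ciSup_le fun j => hφ2 j x,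
    ?_, hpos, ?_⟩
  · have : LipschitzWith 1 ρ := LipschitzWith.of_le_add fun x y =>
      ciSup_le fun j => (hφL j x y).trans (by linarith [hle j y])
    exact this.continuous
  · intro x hx
    obtain ⟨j, hj⟩ := hatt x
    rw [hj]
    refine le_antisymm (not_lt.1 fun h => ?_) (hφ0 j x)
    exact (h1 _ (hcK j) x ((hφpos j x).1 h)).1 hx
  · intro x hx
    obtain ⟨j, hj⟩ := hatt x
    have h2 := hpos x hx
    rw [hj] at h2 ⊢
    exact hmono x _ _ (h1 _ (hcK j) x ((hφpos j x).1 h2)).2 h2 (hφd j x)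


variable {K : Type} [MetricSpace K] [CompactSpace K]

/-- finite open covers of X have refinements of order at most m + 1 -/
def HD (X : Set K) (m : ℕ) : Prop :=
  ∀ (j : ℕ) (U : Fin j → Set K), (∀ i, IsOpen (U i)) → X ⊆ ⋃ i, U i →
    ∃ V : Fin j → Set K, (∀ i, IsOpen (V i)) ∧ (∀ i, V i ⊆ U i) ∧ X ⊆ ⋃ i, V i ∧
      ∀ z : K, Set.ncard {i | z ∈ V i} ≤ m + 1

lemma exists_pos_fun {V : Set K} (hV : IsOpen V) :
    ∃ l : K → ℝ, Continuous l ∧ (∀ z, 0 ≤ l z) ∧ ∀ z, 0 < l z ↔ z ∈ V := by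
  obtain ⟨l, h1, h2, -, h3, h4, -⟩ := bump Vᶜ hV.isClosed_compl (fun _ _ => True)
    (fun _ _ _ _ _ _ => trivial) (fun _ _ => ⟨1, one_pos, Eventually.of_forall fun _ => trivial⟩)
  refine ⟨l, h1, h2, fun z => ⟨fun h => ?_, fun h => h4 z (fun h' => h' h)⟩⟩
  by_contra hz
  rw [h3 z hz] at h
  exact lt_irrefl _ h

lemma av {X : Set K} {m : ℕ} (hX : HD X m) (φ : K → Fin (m + 1) → ℝ) (hφ : Continuous φ)
    (σ : K → ℝ) (hσ : Continuous σ) (hσ0 : ∀ z, 0 ≤ σ z) (hσX : ∀ x ∈ X, 0 < σ x) :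
    ∃ p : K → Fin (m + 1) → ℝ, Continuous p ∧ (∀ z c, |p z c| ≤ 2 * σ z) ∧
      ∀ x ∈ X, ∃ c, φ x c + p x c ≠ 0 := by
  classical
  obtain ⟨j, ⟨e⟩⟩ := Finite.exists_equiv_fin (Fin (m + 1) → Bool)
  let s : Fin j → Fin (m + 1) → ℝ := fun i c => if e.symm i c then 1 else -1
  have hs : ∀ i c, s i c = 1 ∨ s i c = -1 := by
    intro i c
    simp only [s]
    split_ifs <;> simp
  obtain ⟨V, hVo, hVU, hVX, hVn⟩ := hX j (fun i => ⋂ c, {z | -σ z < s i c * φ z c})
    (fun i => isOpen_iInter_of_finite fun c => isOpen_lt (by fun_prop) (by fun_prop)) (by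
      intro x hx
      refine mem_iUnion.2 ⟨e (fun c => decide (0 ≤ φ x c)), mem_iInter.2 fun c => ?_⟩
      have := hσX x hx
      simp only [s, Equiv.symm_apply_apply, mem_ofPred_eq, decide_eq_true_eq]
      split_ifs with h
      · linarith
      · push Not at h
        linarith)
  choose l hlc hl0 hlV using fun i => exists_pos_fun (hVo i)
  let μ : Finset (Fin j) → K → ℝ := fun S z =>
    ∏ i ∈ S, (l i z * ∏ k ∈ Sᶜ, max 0 (l i z - l k z))
  have hμc : ∀ S, Continuous (μ S) := fun S =>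
    continuous_finset_prod _ fun i _ => (hlc i).mul
      (continuous_finset_prod _ fun k _ => continuous_const.max ((hlc i).sub (hlc k)))
  have hμ0 : ∀ S z, 0 ≤ μ S z := fun S z =>
    Finset.prod_nonneg fun i _ => mul_nonneg (hl0 i z)
      (Finset.prod_nonneg fun k _ => le_max_left _ _)
  have hμ1 : ∀ S z, μ S z ≠ 0 → ∀ i ∈ S, ∀ k ∉ S, l k z < l i z := by
    intro S z h i hi k hk
    have h1 := (mul_ne_zero_iff.1 (Finset.prod_ne_zero_iff.1 h i hi)).2
    have h2 := Finset.prod_ne_zero_iff.1 h1 k (Finset.mem_compl.2 hk)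
    by_contra h3
    exact h2 (max_eq_left (by linarith))
  have hμ2 : ∀ S S' z, μ S z ≠ 0 → μ S' z ≠ 0 → S.card = S'.card → S = S' := by
    intro S S' z h h' hc
    by_contra hne
    have h1 : ¬ S ⊆ S' := fun h1 => hne (Finset.eq_of_subset_of_card_le h1 hc.ge)
    have h2 : ¬ S' ⊆ S := fun h2 => hne (Finset.eq_of_subset_of_card_le h2 hc.le).symm
    obtain ⟨i, hi, hi'⟩ := Finset.not_subset.1 h1
    obtain ⟨k, hk, hk'⟩ := Finset.not_subset.1 h2
    linarith [hμ1 S z h i hi k hk', hμ1 S' z h' k hk i hi']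
  let t : Finset (Fin j) → Fin (m + 1) → ℝ := fun S c =>
    if h : S.Nonempty then (if S.card = c + 1 then s h.choose c else 0) else 0
  have ht : ∀ S c, |t S c| ≤ 1 := by
    intro S c
    simp only [t]
    split_ifs with h1 h2
    · rcases hs h1.choose c with e | e <;> rw [e] <;> norm_num
    · norm_num
    · norm_num
  obtain ⟨N, hN⟩ : ∃ N : ℝ, N = Fintype.card (Finset (Fin j)) := ⟨_, rfl⟩
  have hN0 : 0 < N := by
    rw [hN]
    exact_mod_cast Fintype.card_pos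
  refine ⟨fun z c => -cl (φ z c) (σ z) + ∑ S, t S c * min (μ S z) (σ z / N), ?_, ?_, ?_⟩
  · refine continuous_pi fun c => Continuous.add (by fun_prop) ?_
    exact continuous_finset_sum _ fun S _ =>
      continuous_const.mul ((hμc S).min (hσ.div_const N))
  · intro z c
    have h1 := cl_abs (φ z c) (hσ0 z)
    have h2 : |∑ S, t S c * min (μ S z) (σ z / N)| ≤ σ z := by
      refine (Finset.abs_sum_le_sum_abs _ _).trans ?_
      refine (Finset.sum_le_card_nsmul _ _ (σ z / N) fun S _ => ?_).trans ?_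
      · have h3 : 0 ≤ min (μ S z) (σ z / N) := le_min (hμ0 S z) (div_nonneg (hσ0 z) hN0.le)
        rw [abs_mul, abs_of_nonneg h3]
        exact (mul_le_of_le_one_left h3 (ht S c)).trans (min_le_right _ _)
      · rw [Finset.card_univ, nsmul_eq_mul, ← hN, mul_div_cancel₀ _ hN0.ne']
    have h3 := abs_add_le (-cl (φ z c) (σ z)) (∑ S, t S c * min (μ S z) (σ z / N))
    rw [abs_neg] at h3
    linarith
  · intro x hx
    obtain ⟨i0, hi0⟩ := mem_iUnion.1 (hVX hx)
    obtain ⟨i1, -, hi1⟩ := Finset.univ.exists_max_image (fun i => l i x) ⟨i0, Finset.mem_univ _⟩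
    have hM : 0 < l i1 x := ((hlV i0 x).2 hi0).trans_le (hi1 i0 (Finset.mem_univ _))
    obtain ⟨S, hS⟩ : ∃ S : Finset (Fin j), ∀ i, i ∈ S ↔ l i x = l i1 x :=
      ⟨Finset.univ.filter fun i => l i x = l i1 x, fun i => by simp⟩
    have hSne : S.Nonempty := ⟨i1, (hS i1).2 rfl⟩
    have hSV : ∀ i ∈ S, x ∈ V i := fun i hi => (hlV i x).1 (((hS i).1 hi).symm ▸ hM)
    have hSc : S.card ≤ m + 1 := by
      refine le_trans ?_ (hVn x)
      rw [← Set.ncard_coe_finset]
      exact Set.ncard_le_ncard (fun i hi => hSV i hi) (toFinite _)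
    have hSp := hSne.card_pos
    have hμS : 0 < μ S x := by
      refine Finset.prod_pos fun i hi => mul_pos (((hS i).1 hi).symm ▸ hM)
        (Finset.prod_pos fun k hk => lt_max_of_lt_right ?_)
      have h1 := hi1 k (Finset.mem_univ _)
      have h2 : l k x ≠ l i1 x := fun h => Finset.mem_compl.1 hk ((hS k).2 h)
      rw [(hS i).1 hi]
      exact sub_pos.2 (lt_of_le_of_ne h1 h2)
    let c : Fin (m + 1) := ⟨S.card - 1, by omega⟩
    have hc : S.card = c + 1 := by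
      simp only [c]
      omega
    refine ⟨c, ?_⟩
    have h1 : ∑ S', t S' c * min (μ S' x) (σ x / N)
        = s hSne.choose c * min (μ S x) (σ x / N) := by
      rw [Finset.sum_eq_single S]
      · simp only [t, dif_pos hSne, if_pos hc]
      · intro S' _ hne
        by_cases h2 : S'.card = c + 1
        · have h3 : μ S' x = 0 := by
            by_contra h3
            exact hne (hμ2 S' S x h3 hμS.ne' (h2.trans hc.symm))
          rw [h3, min_eq_left (div_nonneg (hσ0 x) hN0.le), mul_zero]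
        · simp only [t, if_neg h2, dite_eq_ite, ite_self, zero_mul]
      · simp
    have h2 : -σ x < s hSne.choose c * φ x c := mem_iInter.1 (hVU _ (hSV _ hSne.choose_spec)) c
    have h3 : 0 < min (μ S x) (σ x / N) := lt_min hμS (div_pos (hσX x hx) hN0)
    show φ x c + (-cl (φ x c) (σ x) + ∑ S', t S' c * min (μ S' x) (σ x / N)) ≠ 0
    rw [h1]
    generalize min (μ S x) (σ x / N) = w at h3
    intro h4
    rcases hs hSne.choose c with e | e <;> rw [e] at h2 h4 <;>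
      rcases cl_cases (φ x c) (hσ0 x) with ⟨e', _, _⟩ | ⟨e', _⟩ | ⟨e', _⟩ <;>
      rw [e'] at h4 <;> linarith

lemma exists_margin {Y : Type} [MetricSpace Y] {X : Set K} {B : Set (K × Y)} (hB : IsClosed B)
    {H : K → Y} (hH : Continuous H) (h : ∀ x ∈ X, (x, H x) ∉ B) :
    ∃ τ : K → ℝ, Continuous τ ∧ (∀ z, 0 ≤ τ z) ∧ (∀ x ∈ X, 0 < τ x) ∧
      ∀ z y, dist y (H z) < τ z → (z, y) ∉ B := by
  rcases B.eq_empty_or_nonempty with rfl | hne
  · exact ⟨fun _ => 1, continuous_const, fun _ => zero_le_one, fun _ _ => one_pos,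
      fun _ _ _ h => h⟩
  refine ⟨fun z => Metric.infDist (z, H z) B,
    (Metric.continuous_infDist_pt B).comp (by fun_prop), fun _ => Metric.infDist_nonneg,
    fun x hx => (hB.notMem_iff_infDist_pos hne).1 (h x hx), fun z y hy hB' => ?_⟩
  have := Metric.infDist_le_dist_of_mem (x := (z, H z)) hB'
  rw [Prod.dist_eq, dist_self, max_eq_right dist_nonneg, dist_comm] at this
  linarith

structure Sq (K : Type) [MetricSpace K] (Y : Type) [MetricSpace Y] (X : Set K) where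
  H : K → Y
  σ : K → ℝ
  hH : Continuous H
  hσ : Continuous σ
  h0 : ∀ z, 0 ≤ σ z
  hX : ∀ x ∈ X, 0 < σ x

lemma iter {Y : Type} [MetricSpace Y] [CompleteSpace Y] {X : Set K}
    (R : ℕ → (K → Y) → (K → ℝ) → Prop)
    (h : ∀ (n : ℕ) (a : Sq K Y X), ∃ b : Sq K Y X, (∀ z, dist (b.H z) (a.H z) ≤ a.σ z / 2) ∧
      (∀ z, b.σ z ≤ a.σ z / 2) ∧ R n b.H b.σ) (a0 : Sq K Y X) (h1 : ∀ z, a0.σ z ≤ 1) :
    ∃ G : K → Y, Continuous G ∧ (∀ z, dist (G z) (a0.H z) ≤ a0.σ z) ∧
      ∀ n, ∃ b : Sq K Y X, R n b.H b.σ ∧ ∀ z, dist (G z) (b.H z) ≤ b.σ z := by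
  choose nx hn1 hn2 hn3 using h
  let a : ℕ → Sq K Y X := fun n => Nat.rec a0 nx n
  have ha : ∀ n, a (n + 1) = nx n (a n) := fun n => rfl
  have hδ : ∀ n x, (a n).σ x ≤ (1 / 2) ^ n := by
    intro n x
    induction n with
    | zero => exact (h1 x).trans_eq (pow_zero _).symm
    | succ n ih =>
      rw [ha, pow_succ]
      linarith [hn2 n (a n) x]
  obtain ⟨H, hHc, hH⟩ := exists_lim (fun n => (a n).H) (fun n => (a n).hH) 1 (by
    intro n x
    rw [ha, dist_comm]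
    linarith [hn1 n (a n) x, hδ n x, (a n).h0 x])
  have hd : ∀ n x, dist (H x) ((a n).H x) ≤ (a n).σ x := by
    intro n x
    have h2 : ∀ m, dist ((a (n + m)).H x) ((a n).H x) ≤ (a n).σ x - (a (n + m)).σ x := by
      intro m
      induction m with
      | zero => simp
      | succ m ih =>
        rw [← add_assoc, ha]
        linarith [hn1 (n + m) (a (n + m)) x, hn2 (n + m) (a (n + m)) x,
          dist_triangle ((nx (n + m) (a (n + m))).H x) ((a (n + m)).H x) ((a n).H x)]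
    refine le_of_tendsto ((hH x).dist tendsto_const_nhds) ?_
    filter_upwards [eventually_ge_atTop n] with k hk
    obtain ⟨m, rfl⟩ := Nat.exists_eq_add_of_le hk
    linarith [h2 m, (a (n + m)).h0 x]
  exact ⟨H, hHc, hd 0, fun n => ⟨a (n + 1), hn3 n (a n), hd (n + 1)⟩⟩

lemma av_all {Y α : Type} [MetricSpace Y] [CompleteSpace Y] [Countable α] [Nonempty α]
    {X : Set K} (B : α → Set (K × Y)) (hB : ∀ i, IsClosed (B i))
    (h : ∀ (i : α) (a : Sq K Y X), ∃ H' : K → Y, Continuous H' ∧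
      (∀ z, dist (H' z) (a.H z) ≤ a.σ z / 2) ∧ ∀ x ∈ X, (x, H' x) ∉ B i)
    (a0 : Sq K Y X) (h1 : ∀ z, a0.σ z ≤ 1) :
    ∃ G : K → Y, Continuous G ∧ (∀ z, dist (G z) (a0.H z) ≤ a0.σ z) ∧
      ∀ i, ∀ x ∈ X, (x, G x) ∉ B i := by
  obtain ⟨e, he⟩ := exists_surjective_nat α
  obtain ⟨G, hG, h2, h3⟩ := iter (X := X)
    (fun n H σ => ∀ x ∈ X, ∀ y, dist y (H x) ≤ σ x → (x, y) ∉ B (e n)) (by
      intro n a
      obtain ⟨H', p1, p2, p3⟩ := h (e n) a
      obtain ⟨τ, t1, t2, t3, t4⟩ := exists_margin (hB (e n)) p1 p3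
      have := a.hσ
      refine ⟨⟨H', fun z => min (a.σ z / 2) (τ z / 2), p1, by fun_prop,
        fun z => le_min (by linarith [a.h0 z]) (by linarith [t2 z]),
        fun x hx => lt_min (half_pos (a.hX x hx)) (half_pos (t3 x hx))⟩, p2,
        fun z => min_le_left _ _, fun x hx y hy => t4 x y ?_⟩
      exact hy.trans_lt ((min_le_right _ _).trans_lt (half_lt_self (t3 x hx)))) a0 h1
  refine ⟨G, hG, h2, fun i x hx => ?_⟩
  obtain ⟨n, rfl⟩ := he i
  obtain ⟨b, hb1, hb2⟩ := h3 n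
  exact hb1 x hx _ (hb2 x)

end Pool.Agent.H.MP_068a93_gt
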