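import Pool.Agent.H.MP_068a93_gt.A

set_option autoImplicit false

namespace Pool.Agent.H.MP_068a93_gt
open Set Filter Topology

noncomputable def ell {r : ℕ} (w : Fin r → ℝ) : ℝ := ∑ j : Fin r, 3 ^ (j : ℕ) * w j

def Can (b : ℝ) : Set ℝ :=
  {w | ∃ (u : ℕ → ℝ) (n : ℕ → ℤ), u 0 = w ∧
    ∀ j, |u j| ≤ 1 ∧ |n j| ≤ 1 ∧ u (j + 1) = b * (u j - n j)}

lemma Can_step {b w : ℝ} (h : w ∈ Can b) :
    |w| ≤ 1 ∧ ∃ n : ℤ, |n| ≤ 1 ∧ b * (w - n) ∈ Can b := by
  obtain ⟨u, n, rfl, h⟩ := h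
  exact ⟨(h 0).1, n 0, (h 0).2.1, fun j => u (j + 1), fun j => n (j + 1), (h 0).2.2,
    fun j => h (j + 1)⟩

lemma int_inj : ∀ (r : ℕ) (n n' : Fin r → ℤ), (∀ j, |n j| ≤ 1) → (∀ j, |n' j| ≤ 1) →
    ∑ j : Fin r, 3 ^ (j : ℕ) * n j = ∑ j : Fin r, 3 ^ (j : ℕ) * n' j → n = n' := by
  intro r
  induction r with
  | zero => intro n n' _ _ _; funext j; exact j.elim0
  | succ r ih =>
    intro n n' h h' e
    simp only [Fin.sum_univ_succ, Fin.val_zero, pow_zero, one_mul, Fin.val_succ, pow_succ',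
      mul_assoc, ← Finset.mul_sum] at e
    have h1 := abs_le.1 (h 0)
    have h2 := abs_le.1 (h' 0)
    have h3 : n 0 = n' 0 := by omega
    have h4 := ih (fun j => n j.succ) (fun j => n' j.succ) (fun j => h _) (fun j => h' _)
      (by omega)
    funext j
    refine Fin.cases h3 (fun i => congrFun h4 i) j

lemma sum3 (r : ℕ) : ∑ j : Fin r, (3 : ℝ) ^ (j : ℕ) ≤ 3 ^ r := by
  induction r with
  | zero => simp
  | succ r ih =>
    rw [Fin.sum_univ_castSucc, pow_succ]
    simp only [Fin.val_castSucc, Fin.val_last]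
    have : (0 : ℝ) < 3 ^ r := by positivity
    linarith

lemma ell_abs {r : ℕ} {w : Fin r → ℝ} {c : ℝ} (hc : 0 ≤ c) (h : ∀ j, |w j| ≤ c) :
    |ell w| ≤ 3 ^ r * c := by
  refine (Finset.abs_sum_le_sum_abs _ _).trans ?_
  refine le_trans (Finset.sum_le_sum (g := fun j : Fin r => 3 ^ (j : ℕ) * c) fun j _ => ?_) ?_
  · rw [abs_mul, abs_of_pos (by positivity)]
    exact mul_le_mul_of_nonneg_left (h j) (by positivity)
  · rw [← Finset.sum_mul]
    exact mul_le_mul_of_nonneg_right (sum3 r) hc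

lemma ell_lin {r : ℕ} (b : ℝ) (w v : Fin r → ℝ) :
    ell (fun j => b * (w j - v j)) = b * (ell w - ell v) := by
  unfold ell
  rw [← Finset.sum_sub_distrib, Finset.mul_sum]
  exact Finset.sum_congr rfl fun j _ => by ring

lemma can_lip (r : ℕ) (N : ℕ) : ∀ w w' : Fin r → ℝ, (∀ j, w j ∈ Can (4 * 3 ^ r)) →
    (∀ j, w' j ∈ Can (4 * 3 ^ r)) →
    ∀ j, |w j - w' j| ≤ 4 * |ell w - ell w'| + 2 * (1 / 2) ^ N := by
  have h3 : (1 : ℝ) ≤ 3 ^ r := one_le_pow₀ (by norm_num)
  have hb : ∀ w w' : Fin r → ℝ, (∀ j, w j ∈ Can (4 * 3 ^ r)) →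
      (∀ j, w' j ∈ Can (4 * 3 ^ r)) → ∀ j, |w j - w' j| ≤ 2 := by
    intro w w' h h' j
    have h1 := abs_le.1 (Can_step (h j)).1
    have h2 := abs_le.1 (Can_step (h' j)).1
    rw [abs_le]
    constructor <;> linarith [h1.1, h1.2, h2.1, h2.2]
  induction N with
  | zero =>
    intro w w' h h' j
    have := hb w w' h h' j
    have := abs_nonneg (ell w - ell w')
    norm_num
    linarith
  | succ N ih =>
    intro w w' h h' j
    choose n hn hn2 using fun j => (Can_step (h j)).2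
    choose n' hn' hn2' using fun j => (Can_step (h' j)).2
    have e1 := ell_lin (4 * 3 ^ r) w (fun j => n j)
    have e2 := ell_lin (4 * 3 ^ r) w' (fun j => n' j)
    have hq : (0 : ℝ) < (1 / 2) ^ N := by positivity
    by_cases e : n = n'
    · subst e
      have h1 := ih _ _ hn2 hn2' j
      rw [e1, e2, ← mul_sub, ← mul_sub, sub_sub_sub_cancel_right, sub_sub_sub_cancel_right,
        abs_mul (4 * 3 ^ r : ℝ), abs_mul (4 * 3 ^ r : ℝ),
        abs_of_pos (show (0 : ℝ) < 4 * 3 ^ r by positivity)] at h1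
      rw [pow_succ]
      by_contra h2
      push Not at h2
      nlinarith [abs_nonneg (ell w - ell w')]
    · have h1 : (1 : ℝ) ≤ |ell (fun j => (n j : ℝ)) - ell (fun j => (n' j : ℝ))| := by
        have h2 : ∑ j : Fin r, 3 ^ (j : ℕ) * n j - ∑ j : Fin r, 3 ^ (j : ℕ) * n' j ≠ 0 :=
          fun h2 => e (int_inj r n n' hn hn' (sub_eq_zero.1 h2))
        have h4 := Int.one_le_abs h2
        simp only [ell]
        exact_mod_cast h4
      have h4 := abs_le.1 (ell_abs zero_le_one fun j => (Can_step (hn2 j)).1)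
      have h5 := abs_le.1 (ell_abs zero_le_one fun j => (Can_step (hn2' j)).1)
      rw [e1] at h4
      rw [e2] at h5
      have h6 : |ell w - ell (fun j => (n j : ℝ))| ≤ 1 / 4 := by
        rw [abs_le]
        constructor <;> nlinarith [h4.1, h4.2]
      have h7 : |ell w' - ell (fun j => (n' j : ℝ))| ≤ 1 / 4 := by
        rw [abs_le]
        constructor <;> nlinarith [h5.1, h5.2]
      have h8 := hb w w' h h' j
      have h9 : (0 : ℝ) < (1 / 2) ^ (N + 1) := by positivity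
      rw [abs_le] at h6 h7
      have h10 := le_abs_self (ell w - ell w')
      have h11 := neg_abs_le (ell w - ell w')
      rcases le_abs'.1 h1 with h12 | h12 <;> linarith [h6.1, h6.2, h7.1, h7.2]

lemma exists_gamma (r : ℕ) : ∃ γ : ℝ → Fin r → ℝ, Continuous γ ∧
    ∀ w : Fin r → ℝ, (∀ j, w j ∈ Can (4 * 3 ^ r)) → γ (ell w) = w := by
  classical
  have h1 : ∀ w w' : Fin r → ℝ, (∀ j, w j ∈ Can (4 * 3 ^ r)) →
      (∀ j, w' j ∈ Can (4 * 3 ^ r)) → dist w w' ≤ 4 * dist (ell w) (ell w') := by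
    intro w w' h h'
    rw [dist_pi_le_iff (by positivity)]
    intro j
    rw [Real.dist_eq, Real.dist_eq]
    refine le_of_forall_pos_le_add fun ε hε => ?_
    obtain ⟨N, hN⟩ := exists_pow_lt_of_lt_one (half_pos hε) (show (1 / 2 : ℝ) < 1 by norm_num)
    linarith [can_lip r N w w' h h' j]
  let f : ℝ → Fin r → ℝ := fun s =>
    if h : ∃ w : Fin r → ℝ, (∀ j, w j ∈ Can (4 * 3 ^ r)) ∧ ell w = s then h.choose else 0
  have h2 : ∀ w : Fin r → ℝ, (∀ j, w j ∈ Can (4 * 3 ^ r)) → f (ell w) = w := by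
    intro w hw
    have h : ∃ w' : Fin r → ℝ, (∀ j, w' j ∈ Can (4 * 3 ^ r)) ∧ ell w' = ell w := ⟨w, hw, rfl⟩
    simp only [f, dif_pos h]
    have := h1 _ _ h.choose_spec.1 hw
    rw [h.choose_spec.2, dist_self, mul_zero] at this
    exact dist_le_zero.1 this
  have h3 : LipschitzOnWith 4 f (ell '' {w : Fin r → ℝ | ∀ j, w j ∈ Can (4 * 3 ^ r)}) := by
    refine LipschitzOnWith.of_dist_le_mul ?_
    rintro _ ⟨w, hw, rfl⟩ _ ⟨w', hw', rfl⟩
    rw [h2 w hw, h2 w' hw']
    exact h1 w w' hw hw'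
  obtain ⟨γ, h4, h5⟩ := h3.extend_pi
  exact ⟨γ, h4.continuous, fun w hw => (h5 ⟨w, hw, rfl⟩).symm.trans (h2 w hw)⟩

variable {K : Type} [MetricSpace K] [CompactSpace K]

@[fun_prop]
lemma ell_cont {α : Type} [TopologicalSpace α] {r : ℕ} {f : α → Fin r → ℝ} (hf : Continuous f) :
    Continuous fun x => ell (f x) := by
  unfold ell
  fun_prop

lemma av_bad {X : Set K} {m : ℕ} (hX : HD X m) {ι : Type} [Fintype ι]
    (γ : ℝ → Fin (m + 2) → ℝ) (hγ : Continuous γ) (I : Fin (m + 2) → ι)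
    (hI : Function.Injective I) (A : K → ℝ) (hA : Continuous A) (hA1 : ∀ z, 1 ≤ A z)
    (c : K → Fin (m + 2) → ℝ) (hc : Continuous c) (a : Sq K (ι → ℝ) X) :
    ∃ H' : K → ι → ℝ, Continuous H' ∧ (∀ z, dist (H' z) (a.H z) ≤ a.σ z / 2) ∧
      ∀ x ∈ X, γ (ell fun j => A x * H' x (I j) - c x j) ≠ fun j => A x * H' x (I j) - c x j := by
  classical
  have hH := a.hH
  have hσ := a.hσ
  obtain ⟨M, hM⟩ : ∃ M : ℝ, M = 4 * (m + 2) * 3 ^ (m + 2) := ⟨_, rfl⟩
  have hM0 : 0 < M := by rw [hM]; positivity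
  let w : K → Fin (m + 2) → ℝ := fun z j => A z * a.H z (I j) - c z j
  have hw : Continuous w := by fun_prop
  obtain ⟨p, hp, hp1, hp2⟩ := av hX (fun z i => w z i.succ - γ (ell (w z)) i.succ) (by fun_prop)
    (fun z => a.σ z / M) (by fun_prop) (fun z => div_nonneg (a.h0 z) hM0.le)
    (fun x hx => div_pos (a.hX x hx) hM0)
  let Δ : K → Fin (m + 2) → ℝ := fun z => Fin.cons (-(3 * ell (p z))) (p z)
  have hΔc : Continuous Δ := by
    refine continuous_pi fun j => ?_
    refine Fin.cases ?_ (fun i => ?_) j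
    · simp only [Δ, Fin.cons_zero]
      fun_prop
    · simp only [Δ, Fin.cons_succ]
      fun_prop
  have hΔ0 : ∀ z, ell (Δ z) = 0 := by
    intro z
    unfold ell
    rw [Fin.sum_univ_succ]
    simp only [ell, Δ, Fin.cons_zero, Fin.cons_succ, Fin.val_zero, pow_zero,
      one_mul, Fin.val_succ, pow_succ', mul_assoc, ← Finset.mul_sum]
    ring
  have h3 : (1 : ℝ) ≤ 3 ^ (m + 2) := one_le_pow₀ (by norm_num)
  have hΔ1 : ∀ z j, |Δ z j| ≤ 3 ^ (m + 2) * (2 * (a.σ z / M)) := by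
    intro z j
    have h0 : 0 ≤ 2 * (a.σ z / M) := mul_nonneg zero_le_two (div_nonneg (a.h0 z) hM0.le)
    refine Fin.cases ?_ (fun i => ?_) j
    · simp only [Δ, Fin.cons_zero]
      rw [abs_neg, abs_mul, abs_of_pos (show (0 : ℝ) < 3 by norm_num), pow_succ', mul_assoc]
      exact mul_le_mul_of_nonneg_left (ell_abs h0 (hp1 z)) (by norm_num)
    · simp only [Δ, Fin.cons_succ]
      exact (hp1 z i).trans (le_mul_of_one_le_left h0 h3)
  have hA0 : ∀ z, A z ≠ 0 := fun z => by linarith [hA1 z]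
  refine ⟨fun z i => a.H z i + ∑ j, if I j = i then Δ z j / A z else 0, ?_, ?_, ?_⟩
  · refine continuous_pi fun i => Continuous.add (by fun_prop)
      (continuous_finset_sum _ fun j _ => ?_)
    split_ifs
    · exact Continuous.div (by fun_prop) hA hA0
    · exact continuous_const
  · intro z
    rw [dist_pi_le_iff (by linarith [a.h0 z])]
    intro i
    rw [Real.dist_eq, add_sub_cancel_left]
    refine (Finset.abs_sum_le_sum_abs _ _).trans ?_
    refine (Finset.sum_le_card_nsmul _ _ (3 ^ (m + 2) * (2 * (a.σ z / M))) fun j _ => ?_).trans ?_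
    · split_ifs
      · rw [abs_div, abs_of_pos (show 0 < A z by linarith [hA1 z])]
        exact (div_le_self (abs_nonneg _) (hA1 z)).trans (hΔ1 z j)
      · rw [abs_zero]
        exact (abs_nonneg _).trans (hΔ1 z j)
    · rw [Finset.card_univ, Fintype.card_fin, nsmul_eq_mul, hM]
      apply le_of_eq
      push_cast
      field_simp
      ring
  · intro x hx e
    have h1 : (fun j => A x * (a.H x (I j) + ∑ j', if I j' = I j then Δ x j' / A x else 0)
        - c x j) = fun j => w x j + Δ x j := by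
      funext j
      simp only [hI.eq_iff, Finset.sum_ite_eq', Finset.mem_univ, if_true, w]
      have := hA0 x
      field_simp
      ring
    rw [h1] at e
    have h2 : ell (fun j => w x j + Δ x j) = ell (w x) := by
      have h4 := hΔ0 x
      unfold ell at h4 ⊢
      simp only [mul_add, Finset.sum_add_distrib, h4, add_zero]
    rw [h2] at e
    obtain ⟨i, hi⟩ := hp2 x hx
    apply hi
    have := congrFun e i.succ
    simp only [Δ, Fin.cons_succ] at this
    linarith

noncomputable def UU (a t : ℝ) : ℝ := t + (cl (a * (t - round t)) (1 / 2) - (t - round t))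

lemma sub_round_eq (t : ℝ) : t - round t = Int.fract (t + 1 / 2) - 1 / 2 := by
  rw [round_eq]
  unfold Int.fract
  ring

lemma UU_cont {α : Type} [TopologicalSpace α] {f g : α → ℝ} (hf : Continuous f)
    (hg : Continuous g) (h1 : ∀ x, 1 ≤ f x) : Continuous fun x => UU (f x) (g x) := by
  have h : Continuous fun x => cl (f x * (Int.fract (g x + 1 / 2) - 1 / 2)) (1 / 2)
      - (Int.fract (g x + 1 / 2) - 1 / 2) := by
    refine ContinuousOn.comp_fract (s := fun x => g x + 1 / 2)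
      (f := fun x s => cl (f x * (s - 1 / 2)) (1 / 2) - (s - 1 / 2)) ?_ (by fun_prop) ?_
    · refine Continuous.continuousOn ?_
      unfold Function.uncurry
      fun_prop
    · intro x
      have := h1 x
      rcases cl_cases (f x * (0 - 1 / 2)) (show (0 : ℝ) ≤ 1 / 2 by norm_num) with
        ⟨e, _, _⟩ | ⟨e, _⟩ | ⟨e, _⟩ <;>
      rcases cl_cases (f x * (1 - 1 / 2)) (show (0 : ℝ) ≤ 1 / 2 by norm_num) with
        ⟨e', _, _⟩ | ⟨e', _⟩ | ⟨e', _⟩ <;> linarith
  unfold UU
  simp only [sub_round_eq]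
  exact hg.add h

lemma nz_cont : Continuous fun t : ℝ => |t - round t| := by
  have : LipschitzWith 1 fun t : ℝ => |t - round t| := by
    refine LipschitzWith.of_le_add fun x y => (round_le x (round y)).trans ?_
    rw [Real.dist_eq, add_comm]
    exact abs_sub_le _ _ _
  exact this.continuous

lemma UU_disp (a t : ℝ) : |UU a t - t| ≤ 1 := by
  have h1 := abs_le.1 (cl_abs (a * (t - round t)) (show (0 : ℝ) ≤ 1 / 2 by norm_num))
  have h2 := abs_le.1 (abs_sub_round t)
  unfold UU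
  rw [abs_le]
  constructor <;> linarith [h1.1, h1.2, h2.1, h2.2]

lemma UU_one (t : ℝ) : UU 1 t = t := by
  unfold UU
  rw [one_mul, cl_self (abs_sub_round t)]
  ring

lemma UU_int (a : ℝ) (n : ℤ) : UU a n = n := by
  unfold UU
  rw [round_intCast, sub_self, mul_zero, cl_self (by norm_num)]
  ring

lemma UU_in {a t : ℝ} (h : |a * (t - round t)| ≤ 1 / 2) :
    UU a t = round t + a * (t - round t) := by
  unfold UU
  rw [cl_self h]
  ring

lemma UU_out {a t : ℝ} (h : 1 / 2 < |a * (t - round t)|) : ∃ n : ℤ, 2 * UU a t = n := by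
  unfold UU
  rcases cl_cases (a * (t - round t)) (show (0 : ℝ) ≤ 1 / 2 by norm_num) with
    ⟨e, h1, h2⟩ | ⟨e, _⟩ | ⟨e, _⟩
  · exact absurd (abs_le.2 ⟨h1, h2⟩) (not_le.2 h)
  · exact ⟨2 * round t + 1, by rw [e]; push_cast; ring⟩
  · exact ⟨2 * round t - 1, by rw [e]; push_cast; ring⟩

noncomputable def aa (b q r : ℝ) : ℝ := max 1 (min (b / 2) (1 + b / 2 * (r / q - 1)))

lemma aa_low {b q r : ℝ} (hb : 0 ≤ b) (hq : 0 < q) (h : r ≤ q) : aa b q r = 1 := by
  refine max_eq_left ((min_le_right _ _).trans ?_)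
  have : r / q ≤ 1 := (div_le_one hq).2 h
  nlinarith

lemma aa_high {b q r : ℝ} (hb : 2 ≤ b) (hq : 0 < q) (h : 2 * q ≤ r) : aa b q r = b / 2 := by
  have : 2 ≤ r / q := (le_div_iff₀ hq).2 h
  unfold aa
  rw [min_eq_left (by nlinarith), max_eq_right (by linarith)]

noncomputable def orb (b r t : ℝ) : ℕ → ℝ
  | 0 => t
  | k + 1 => (1 / 2) ^ k * UU (aa b ((1 / 2) ^ k) r) (orb b r t k / (1 / 2) ^ k)

lemma orb_cont {α : Type} [TopologicalSpace α] {f g : α → ℝ} (b : ℝ) (hf : Continuous f)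
    (hg : Continuous g) (k : ℕ) : Continuous fun x => orb b (f x) (g x) k := by
  induction k with
  | zero => exact hg
  | succ k ih =>
    refine continuous_const.mul (UU_cont ?_ (ih.div_const _) fun x => le_max_left _ _)
    unfold aa
    fun_prop

lemma orb_norm (b r t : ℝ) (k : ℕ) : orb b r t (k + 1) / (1 / 2) ^ (k + 1)
    = 2 * UU (aa b ((1 / 2) ^ k) r) (orb b r t k / (1 / 2) ^ k) := by
  rw [orb]
  field_simp
  ring

lemma orb_step (b r t : ℝ) (k : ℕ) : |orb b r t (k + 1) - orb b r t k| ≤ (1 / 2) ^ k := by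
  have hq : (0 : ℝ) < (1 / 2) ^ k := by positivity
  have h := UU_disp (aa b ((1 / 2) ^ k) r) (orb b r t k / (1 / 2) ^ k)
  have e : orb b r t (k + 1) - orb b r t k = (1 / 2) ^ k *
      (UU (aa b ((1 / 2) ^ k) r) (orb b r t k / (1 / 2) ^ k) - orb b r t k / (1 / 2) ^ k) := by
    rw [orb]
    field_simp
  rw [e, abs_mul, abs_of_pos hq]
  exact mul_le_of_le_one_right hq.le h

lemma orb_low {b r : ℝ} (hb : 0 ≤ b) (t : ℝ) {k : ℕ} (h : r ≤ (1 / 2) ^ k) :
    orb b r t (k + 1) = orb b r t k := by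
  have hq : (0 : ℝ) < (1 / 2) ^ k := by positivity
  rw [orb, aa_low hb hq h, UU_one]
  field_simp

lemma orb_disp {b r : ℝ} (hb : 0 ≤ b) (hr : 0 ≤ r) (t : ℝ) (n : ℕ) :
    |orb b r t n - t| ≤ 2 * r := by
  have h1 : |orb b r t n - t| ≤ max 0 (2 * r - 2 * (1 / 2) ^ n) := by
    induction n with
    | zero => simp [orb]
    | succ n ih =>
      have hq : (0 : ℝ) < (1 / 2) ^ n := by positivity
      rcases le_or_gt r ((1 / 2) ^ n) with h | h
      · rw [orb_low hb t h]
        refine ih.trans (max_le_max le_rfl ?_)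
        rw [pow_succ]
        linarith
      · rw [max_eq_right (by linarith)] at ih
        refine le_max_of_le_right ?_
        have h2 := orb_step b r t n
        have h3 := abs_sub_le (orb b r t (n + 1)) (orb b r t n) t
        rw [pow_succ]
        linarith
  have hq : (0 : ℝ) < (1 / 2) ^ n := by positivity
  exact h1.trans (max_le (by linarith) (by linarith))

def Sv (b r t : ℝ) : Prop := ∀ k : ℕ, aa b ((1 / 2) ^ k) r *
  |orb b r t k / (1 / 2) ^ k - round (orb b r t k / (1 / 2) ^ k)| ≤ 1 / 2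

lemma aa_abs (b q r s : ℝ) : |aa b q r * s| = aa b q r * |s| := by
  rw [abs_mul, abs_of_pos (lt_of_lt_of_le one_pos (le_max_left _ _))]

lemma land {b r t : ℝ} (h : ¬ Sv b r t) :
    ∃ (k : ℕ) (a : ℚ), ∀ i, orb b r t (k + i) = a := by
  simp only [Sv, not_forall, not_le] at h
  obtain ⟨k, hk⟩ := h
  rw [← aa_abs] at hk
  obtain ⟨n, hn⟩ := UU_out hk
  rw [← orb_norm] at hn
  refine ⟨k + 1, n * (1 / 2) ^ (k + 1), fun i => ?_⟩
  have h1 : ∀ i, orb b r t (k + 1 + i) / (1 / 2) ^ (k + 1 + i) = ((n * 2 ^ i : ℤ) : ℝ) := by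
    intro i
    induction i with
    | zero => simpa using hn
    | succ i ih =>
      rw [← add_assoc, orb_norm, ih, UU_int]
      push_cast
      ring
  have h2 := h1 i
  rw [div_eq_iff (by positivity)] at h2
  rw [h2]
  push_cast
  rw [pow_add _ (k + 1) i, one_div, inv_pow (2 : ℝ) i]
  field_simp

lemma Sv_zero {b : ℝ} (hb : 0 ≤ b) (t : ℝ) : Sv b 0 t := by
  intro k
  rw [aa_low hb (by positivity) (by positivity), one_mul]
  exact abs_sub_round _

lemma Sv_can {b r t : ℝ} (hb : 2 ≤ b) {k : ℕ} (hk : (1 / 2) ^ k < r)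
    (hk' : ∀ j < k, r ≤ (1 / 2) ^ j) (h : Sv b r t) :
    2 * aa b ((1 / 2) ^ k) r / (1 / 2) ^ k * t
      - 2 * aa b ((1 / 2) ^ k) r * round (t / (1 / 2) ^ k) ∈ Can b := by
  have h0 : ∀ j ≤ k, orb b r t j = t := by
    intro j
    induction j with
    | zero => intro _; rfl
    | succ j ih =>
      intro hj
      rw [orb_low (by linarith) t (hk' j hj), ih (by omega)]
  let Y : ℕ → ℝ := fun j => orb b r t (k + j) / (1 / 2) ^ (k + j)
  let u : ℕ → ℝ := fun j => 2 * (aa b ((1 / 2) ^ (k + j)) r * (Y j - round (Y j)))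
  have h1 : ∀ j, |aa b ((1 / 2) ^ (k + j)) r * (Y j - round (Y j))| ≤ 1 / 2 := by
    intro j
    rw [aa_abs]
    exact h (k + j)
  have h2 : ∀ j, Y (j + 1) = 2 * round (Y j) + u j := by
    intro j
    have := orb_norm b r t (k + j)
    rw [UU_in (h1 j)] at this
    simp only [u]
    rw [← mul_add]
    exact this
  have h3 : ∀ j, |u j| ≤ 1 := by
    intro j
    simp only [u]
    rw [abs_mul, abs_of_pos two_pos]
    linarith [h1 j]
  refine ⟨u, fun j => round (Y (j + 1)) - 2 * round (Y j), ?_, fun j => ⟨h3 j, ?_, ?_⟩⟩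
  · simp only [u, Y, add_zero, h0 k le_rfl]
    ring
  · have h4 := abs_le.1 (h3 j)
    have h5 := abs_le.1 (abs_sub_round (Y (j + 1)))
    have h6 := h2 j
    have h7 : ((round (Y (j + 1)) - 2 * round (Y j) : ℤ) : ℝ) < (2 : ℤ) := by
      push_cast
      linarith [h4.2, h5.1]
    have h8 : (((-2 : ℤ)) : ℝ) < ((round (Y (j + 1)) - 2 * round (Y j) : ℤ) : ℝ) := by
      push_cast
      linarith [h4.1, h5.2]
    have h9 := Int.cast_lt.1 h7
    have h10 := Int.cast_lt.1 h8
    show |round (Y (j + 1)) - 2 * round (Y j)| ≤ 1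
    rw [abs_le]
    constructor <;> omega
  · have h4 : ((1 / 2 : ℝ)) ^ (k + (j + 1)) ≤ (1 / 2) ^ (k + 1) :=
      pow_le_pow_of_le_one (by norm_num) (by norm_num) (by omega)
    have h5 : aa b ((1 / 2) ^ (k + (j + 1))) r = b / 2 :=
      aa_high hb (by positivity) (by rw [pow_succ] at h4; linarith)
    have h6 := h2 j
    show 2 * (aa b ((1 / 2) ^ (k + (j + 1))) r * (Y (j + 1) - round (Y (j + 1)))) = _
    rw [h5]
    push_cast
    have h7 : u j = Y (j + 1) - 2 * round (Y j) := by linarith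
    rw [h7]
    ring

end Pool.Agent.H.MP_068a93_gt
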