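import Pool.Agent.H.MP_068a93_gt.B

set_option autoImplicit false

namespace Pool.Agent.H.MP_068a93_gt
open Set Filter Topology

variable {K : Type} [MetricSpace K] [CompactSpace K]

lemma push {X : Set K} {m : ℕ} (hX : HD X m) {ι : Type} [Fintype ι] [Nonempty ι]
    (H : K → ι → ℝ) (hH : Continuous H) (r : K → ℝ) (hr : Continuous r) (hr0 : ∀ z, 0 ≤ r z)
    (hr1 : ∀ z, r z ≤ 1) (hrX : ∀ x ∈ X, 0 < r x) :
    ∃ (G : K → ι → ℝ) (E : Set K), Continuous G ∧ IsClosed E ∧ (∀ x ∈ X, x ∉ E) ∧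
      (∀ z ∉ E, 0 < r z) ∧ (∀ z, dist (G z) (H z) ≤ 3 * r z) ∧
      ∀ z ∉ E, ∀ I : Fin (m + 2) → ι, Function.Injective I → ∃ j, ∃ a : ℚ, G z (I j) = a := by
  classical
  obtain ⟨γ, hγ, hγ2⟩ := exists_gamma (m + 2)
  obtain ⟨b, hb⟩ : ∃ b : ℝ, b = 4 * 3 ^ (m + 2) := ⟨_, rfl⟩
  have hb2 : 2 ≤ b := by
    have h3 : (1 : ℝ) ≤ 3 ^ (m + 2) := one_le_pow₀ (by norm_num)
    linarith
  rw [← hb] at hγ2
  let A : ℕ → K → ℝ := fun k z => 2 * aa b ((1 / 2) ^ k) (r z) / (1 / 2) ^ k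
  let c : ℕ → (Fin (m + 2) → ℤ) → K → Fin (m + 2) → ℝ := fun k n z j =>
    2 * aa b ((1 / 2) ^ k) (r z) * n j
  have hAc : ∀ k, Continuous (A k) := by
    intro k
    simp only [A, aa]
    fun_prop
  have hcc : ∀ k n, Continuous (c k n) := by
    intro k n
    simp only [c, aa]
    fun_prop
  have hA1 : ∀ k z, 1 ≤ A k z := by
    intro k z
    have h1 : (1 : ℝ) ≤ aa b ((1 / 2) ^ k) (r z) := le_max_left _ _
    have h2 : ((1 / 2 : ℝ)) ^ k ≤ 1 := pow_le_one₀ (by norm_num) (by norm_num)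
    simp only [A]
    rw [le_div_iff₀ (by positivity)]
    linarith
  let B : ℕ × (Fin (m + 2) → ι) × (Fin (m + 2) → ℤ) → Set (K × (ι → ℝ)) := fun α =>
    {p | Function.Injective α.2.1 ∧
      γ (ell fun j => A α.1 p.1 * p.2 (α.2.1 j) - c α.1 α.2.2 p.1 j)
        = fun j => A α.1 p.1 * p.2 (α.2.1 j) - c α.1 α.2.2 p.1 j}
  obtain ⟨H', hH', hd, hB⟩ := av_all (X := X) B (by
      rintro ⟨k, I, n⟩
      have h1 := hAc k
      have h2 := hcc k n
      exact IsClosed.and isClosed_const (isClosed_eq (by fun_prop) (by fun_prop)))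
    (by
      rintro ⟨k, I, n⟩ a
      by_cases hI : Function.Injective I
      · obtain ⟨H', p1, p2, p3⟩ := av_bad hX γ hγ I hI (A k) (hAc k) (hA1 k) (c k n) (hcc k n) a
        exact ⟨H', p1, p2, fun x hx h => p3 x hx h.2⟩
      · exact ⟨a.H, a.hH, fun z => by rw [dist_self]; linarith [a.h0 z],
          fun x _ h => hI h.1⟩)
    ⟨H, r, hH, hr, hr0, hrX⟩ hr1
  have hoc : ∀ k i, Continuous fun z => orb b (r z) (H' z i) k := fun k i =>
    orb_cont b hr (by fun_prop) k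
  obtain ⟨G, hG, hGl⟩ := exists_lim (fun k z i => orb b (r z) (H' z i) k)
    (fun k => continuous_pi fun i => hoc k i) 1 (by
      intro k z
      rw [dist_pi_le_iff (by positivity)]
      intro i
      rw [Real.dist_eq, abs_sub_comm, one_mul]
      exact orb_step _ _ _ _)
  have hGi : ∀ z i, Tendsto (fun k => orb b (r z) (H' z i) k) atTop (𝓝 (G z i)) := fun z i =>
    tendsto_pi_nhds.1 (hGl z) i
  refine ⟨G, {z | r z = 0} ∪ ⋃ I : {I : Fin (m + 2) → ι // Function.Injective I},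
    ⋂ j, {z | Sv b (r z) (H' z (I.1 j))}, hG, ?_, ?_, ?_, ?_, ?_⟩
  · refine (isClosed_eq hr continuous_const).union
      (isClosed_iUnion_of_finite fun I => isClosed_iInter fun j => ?_)
    simp only [Sv, ofPred_forall]
    refine isClosed_iInter fun k => isClosed_le (Continuous.mul ?_ ?_) continuous_const
    · unfold aa
      fun_prop
    · exact nz_cont.comp ((hoc k (I.1 j)).div_const _)
  · rintro x hx (h | h)
    · exact (hrX x hx).ne' h
    · obtain ⟨I, hI⟩ := mem_iUnion.1 h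
      have hex : ∃ k : ℕ, (1 / 2 : ℝ) ^ k < r x := exists_pow_lt_of_lt_one (hrX x hx) (by norm_num)
      refine hB (Nat.find hex, I.1, fun j => round (H' x (I.1 j) / (1 / 2) ^ Nat.find hex)) x hx
        ⟨I.2, hγ2 _ fun j => ?_⟩
      exact Sv_can hb2 (Nat.find_spec hex) (fun j hj => not_lt.1 (Nat.find_min hex hj))
        (mem_iInter.1 hI j)
  · intro z hz
    exact lt_of_le_of_ne (hr0 z) fun e => hz (Or.inl e.symm)
  · intro z
    have h1 : dist (G z) (H' z) ≤ 2 * r z := by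
      rw [dist_pi_le_iff (by linarith [hr0 z])]
      intro i
      exact le_of_tendsto' ((hGi z i).dist tendsto_const_nhds)
        fun k => orb_disp (by linarith) (hr0 z) _ k
    have h2 : dist (H' z) (H z) ≤ r z := hd z
    linarith [dist_triangle (G z) (H' z) (H z)]
  · intro z hz I hI
    have h1 : ∃ j, ¬ Sv b (r z) (H' z (I j)) := by
      by_contra h1
      push Not at h1
      exact hz (Or.inr (mem_iUnion.2 ⟨⟨I, hI⟩, mem_iInter.2 h1⟩))
    obtain ⟨j, hj⟩ := h1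
    obtain ⟨k, a, ha⟩ := land hj
    refine ⟨j, a, tendsto_nhds_unique (hGi z (I j)) (tendsto_const_nhds.congr' ?_)⟩
    filter_upwards [eventually_ge_atTop k] with n hn
    obtain ⟨i, rfl⟩ := Nat.exists_eq_add_of_le hn
    exact (ha i).symm

lemma two_rat {m : ℕ} (y : Fin (m + 3) → ℝ)
    (h : ∀ I : Fin (m + 2) → Fin (m + 3), Function.Injective I → ∃ j, ∃ a : ℚ, y (I j) = a) :
    (∃ (i : Fin (m + 2)) (a b : ℚ), y 0 = a ∧ y i.succ = b) ∨
      ∃ (i j : Fin (m + 2)) (a b : ℚ), i ≠ j ∧ y i.succ = a ∧ y j.succ = b := by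
  obtain ⟨i, a, ha⟩ := h Fin.succ (Fin.succ_injective _)
  obtain ⟨j, b, hb⟩ := h (i.succ).succAbove Fin.succAbove_right_injective
  have hne := Fin.succAbove_ne i.succ j
  generalize (i.succ).succAbove j = k at hb hne
  revert hb hne
  refine Fin.cases ?_ (fun l => ?_) k
  · intro hb _
    exact Or.inl ⟨i, b, a, hb, ha⟩
  · intro hb hne
    exact Or.inr ⟨i, l, a, b, fun e => hne (by rw [e]), ha, hb⟩

lemma ctble_sol {m : ℕ} (α : Fin (m + 2) → ℝ) (hα : Function.Injective α)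
    (hα1 : ∀ i, |α i| ≤ 1 / 4) (p : Fin (m + 2) → ℝ) :
    ∃ A : Set ℝ, A.Countable ∧ ∀ (y : Fin (m + 3) → ℝ) (s : ℝ), 0 < s → |y 0| ≤ 2 →
      (∀ I : Fin (m + 2) → Fin (m + 3), Function.Injective I → ∃ j, ∃ a : ℚ, y (I j) = a) →
      (∀ i : Fin (m + 2), y i.succ + s * (1 + y 0 * α i) = p i) → s ∈ A ∧ y 0 ∈ A := by
  let W : Fin (m + 2) × Fin (m + 2) × ℚ × ℚ → ℝ := fun q =>
    ((p q.1 - q.2.2.1) - (p q.2.1 - q.2.2.2)) / (α q.1 - α q.2.1)
  let S : Fin (m + 2) × Fin (m + 2) × ℚ × ℚ → ℝ := fun q => p q.1 - q.2.2.1 - W q * α q.1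
  refine ⟨((range fun a : ℚ => (a : ℝ)) ∪
    (range fun q : Fin (m + 2) × ℚ × ℚ => (p q.1 - q.2.2) / (1 + q.2.1 * α q.1))) ∪
    (range S ∪ range fun q => W q / S q), ((countable_range _).union (countable_range _)).union
    ((countable_range _).union (countable_range _)), fun y s hs hy h e => ?_⟩
  rcases two_rat y h with ⟨i, a, b, ha, hb⟩ | ⟨i, j, a, b, hij, ha, hb⟩
  · refine ⟨Or.inl (Or.inr ⟨(i, a, b), ?_⟩), Or.inl (Or.inl ⟨a, ha.symm⟩)⟩
    have h1 : |y 0 * α i| ≤ 2 * (1 / 4) := by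
      rw [abs_mul]
      exact mul_le_mul hy (hα1 i) (abs_nonneg _) (by norm_num)
    have h2 : 1 + y 0 * α i ≠ 0 := by linarith [(abs_le.1 h1).1]
    show (p i - b) / (1 + a * α i) = s
    rw [← ha, ← hb, ← e i]
    field_simp
    ring
  · have h1 : α i - α j ≠ 0 := sub_ne_zero.2 fun h => hij (hα h)
    have h2 : W (i, j, a, b) = s * y 0 := by
      show ((p i - a) - (p j - b)) / (α i - α j) = s * y 0
      rw [← ha, ← hb, ← e i, ← e j]
      field_simp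
      ring
    have h3 : S (i, j, a, b) = s := by
      show p i - a - W (i, j, a, b) * α i = s
      rw [h2, ← ha, ← e i]
      ring
    refine ⟨Or.inr (Or.inl ⟨_, h3⟩), Or.inr (Or.inr ⟨(i, j, a, b), ?_⟩)⟩
    show W (i, j, a, b) / S (i, j, a, b) = y 0
    rw [h2, h3]
    field_simp

def Cert {Y : Type} [MetricSpace Y] (X : Set K) (u : K → ℝ) (ε : ℝ) (h : K → Y) (δ : K → ℝ) :
    Prop :=
  ∀ g : K → Y, (∀ z, dist (g z) (h z) ≤ δ z) → ∀ x ∈ X, ∃ V : Set K, IsOpen V ∧ x ∈ V ∧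
    (∀ z ∈ V, |u z - u x| ≤ 2 * ε) ∧ ∃ η > 0, ∀ z ∈ closure V, z ∉ V → η ≤ dist (g z) (g x)

lemma step {X : Set K} {m : ℕ} (hX : HD X m) (u : K → ℝ) (hu : Continuous u)
    (hu1 : ∀ z, |u z| ≤ 1) {ε : ℝ} (hε : 0 < ε) (hε1 : ε ≤ 1) (a : Sq K (Fin (m + 2) → ℝ) X) :
    ∃ b : Sq K (Fin (m + 2) → ℝ) X, (∀ z, dist (b.H z) (a.H z) ≤ a.σ z / 2) ∧
      (∀ z, b.σ z ≤ a.σ z / 2) ∧ Cert X u ε b.H b.σ := by
  obtain ⟨h, δ, hh, hδ, hδ0, hδX⟩ := a
  show ∃ b : Sq K (Fin (m + 2) → ℝ) X, (∀ z, dist (b.H z) (h z) ≤ δ z / 2) ∧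
      (∀ z, b.σ z ≤ δ z / 2) ∧ Cert X u ε b.H b.σ
  obtain ⟨G, E, hG, hE, hEX, hEr, hGd, hGr⟩ := push hX (ι := Fin (m + 3))
    (fun z => Fin.cons (u z) (h z)) (by
      refine continuous_pi fun j => ?_
      refine Fin.cases ?_ (fun i => ?_) j
      · simpa using hu
      · simp only [Fin.cons_succ]
        fun_prop)
    (fun z => min (δ z) ε / 12) (by fun_prop)
    (fun z => div_nonneg (le_min (hδ0 z) hε.le) (by norm_num))
    (fun z => by linarith [min_le_right (δ z) ε])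
    (fun x hx => div_pos (lt_min (hδX x hx) hε) (by norm_num))
  have hδE : ∀ z ∉ E, 0 < δ z := fun z hz => by linarith [hEr z hz, min_le_left (δ z) ε]
  have hGu : ∀ z, |G z 0 - u z| ≤ ε / 4 := by
    intro z
    have := (dist_le_pi_dist _ _ 0).trans (hGd z)
    rw [Real.dist_eq, Fin.cons_zero] at this
    linarith [min_le_right (δ z) ε]
  have hGh : ∀ z i, |G z (Fin.succ i) - h z i| ≤ δ z / 4 := by
    intro z i
    have := (dist_le_pi_dist _ _ (Fin.succ i)).trans (hGd z)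
    rw [Real.dist_eq, Fin.cons_succ] at this
    linarith [min_le_left (δ z) ε]
  have hG2 : ∀ z, |G z 0| ≤ 2 := by
    intro z
    have h1 := abs_le.1 (hGu z)
    have h2 := abs_le.1 (hu1 z)
    rw [abs_le]
    constructor <;> linarith [h1.1, h1.2, h2.1, h2.2]
  have hsm : ∀ (c : ℝ), 0 < c → ∀ z0 ∉ E, ∃ d > 0, ∀ᶠ z in 𝓝 z0, d ≤ c * δ z := by
    intro c hc z0 hz0
    have h1 := mul_pos hc (hδE z0 hz0)
    refine ⟨c * δ z0 / 2, half_pos h1, ?_⟩
    have h2 : Continuous fun z => c * δ z := by fun_prop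
    exact (h2.continuousAt.eventually (lt_mem_nhds (half_lt_self h1))).mono fun z hz => hz.le
  obtain ⟨ρ, hc, h0, -, hKz, hp, hQ⟩ := bump E hE (fun z d => d ≤ 1 / 8 * δ z)
    (fun z d d' h1 _ h2 => h2.trans h1) (hsm _ (by norm_num))
  have hρδ : ∀ x, ρ x ≤ δ x / 8 := by
    intro x
    by_cases hx : x ∈ E
    · rw [hKz x hx]
      linarith [hδ0 x]
    · linarith [hQ x hx]
  obtain ⟨α, hα, hα1⟩ : ∃ α : Fin (m + 2) → ℝ, Function.Injective α ∧ ∀ i, |α i| ≤ 1 / 4 := by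
    refine ⟨fun i => (i : ℕ) / (4 * (m + 2)), fun i j e => ?_, fun i => ?_⟩
    · have h1 : (4 * ((m : ℝ) + 2)) ≠ 0 := by positivity
      exact Fin.ext (Nat.cast_injective (R := ℝ) ((div_left_inj' h1).1 e))
    · have h1 : ((i : ℕ) : ℝ) ≤ m + 2 := by exact_mod_cast i.2.le
      rw [abs_of_nonneg (by positivity), div_le_iff₀ (by positivity)]
      linarith
  obtain ⟨h', hh'⟩ : ∃ h' : K → Fin (m + 2) → ℝ,
      ∀ z i, h' z i = G z i.succ + ρ z * (1 + G z 0 * α i) := ⟨_, fun _ _ => rfl⟩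
  have hh'c : Continuous h' := by
    refine continuous_pi fun i => ?_
    simp only [hh']
    fun_prop
  have hv : Continuous fun z => G z 0 := by fun_prop
  let P : K → ℝ → Prop := fun x η => ∃ s1 s2 c1 c2 : ℝ, (0 < s1 ∧ s1 < ρ x ∧ ρ x < s2 ∧
    s2 < 2 * ρ x ∧ G x 0 - ε < c1 ∧ c1 < G x 0 ∧ G x 0 < c2 ∧ c2 < G x 0 + ε) ∧
    ∀ z, s1 ≤ ρ z → (ρ z = s1 ∨ ρ z = s2 ∨ G z 0 = c1 ∨ G z 0 = c2) → η ≤ dist (h' z) (h' x)
  have hPm : ∀ x η η', P x η → η' ≤ η → P x η' := by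
    rintro x η η' ⟨s1, s2, c1, c2, h1, h3⟩ hle
    exact ⟨s1, s2, c1, c2, h1, fun z a b => hle.trans (h3 z a b)⟩
  have hPloc : ∀ x0 ∉ E, ∃ η > 0, ∀ᶠ x in 𝓝 x0, P x η := by
    intro x0 hx0
    obtain ⟨A, hA, hA2⟩ := ctble_sol α hα hα1 (h' x0)
    have hp0 := hp x0 hx0
    obtain ⟨s1, a1, a2, a3⟩ := exists_avoid A hA hp0
    obtain ⟨s2, b1, b2, b3⟩ := exists_avoid A hA (show ρ x0 < 2 * ρ x0 by linarith)
    obtain ⟨c1, d1, d2, d3⟩ := exists_avoid A hA (show G x0 0 - ε < G x0 0 by linarith)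
    obtain ⟨c2, e1, e2, e3⟩ := exists_avoid A hA (show G x0 0 < G x0 0 + ε by linarith)
    have hF : IsCompact {z | s1 ≤ ρ z ∧ (ρ z = s1 ∨ ρ z = s2 ∨ G z 0 = c1 ∨ G z 0 = c2)} := by
      refine IsClosed.isCompact (IsClosed.and (isClosed_le continuous_const hc) ?_)
      exact (isClosed_eq hc continuous_const).union ((isClosed_eq hc continuous_const).union
        ((isClosed_eq hv continuous_const).union (isClosed_eq hv continuous_const)))
    have hno : h' x0 ∈ (h' ''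
        {z | s1 ≤ ρ z ∧ (ρ z = s1 ∨ ρ z = s2 ∨ G z 0 = c1 ∨ G z 0 = c2)})ᶜ := by
      rintro ⟨z, ⟨hz1, hz2⟩, e⟩
      have hzE : z ∉ E := fun hzE => by linarith [hKz z hzE]
      obtain ⟨f1, f2⟩ := hA2 (G z) (ρ z) (by linarith) (hG2 z) (hGr z hzE)
        (fun i => by rw [← hh', e])
      rcases hz2 with f | f | f | f
      · exact a3 (f ▸ f1)
      · exact b3 (f ▸ f1)
      · exact d3 (f ▸ f2)
      · exact e3 (f ▸ f2)
    obtain ⟨r, hr, hball⟩ := Metric.isOpen_iff.1 (hF.image hh'c).isClosed.isOpen_compl _ hno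
    refine ⟨r / 2, half_pos hr, ?_⟩
    have g1 : ∀ᶠ x in 𝓝 x0, dist (h' x) (h' x0) < r / 2 :=
      hh'c.continuousAt.eventually (Metric.ball_mem_nhds _ (half_pos hr))
    have g2 : ∀ᶠ x in 𝓝 x0, s1 < ρ x := hc.continuousAt.eventually (lt_mem_nhds a2)
    have g3 : ∀ᶠ x in 𝓝 x0, ρ x < s2 := hc.continuousAt.eventually (gt_mem_nhds b1)
    have g4 : ∀ᶠ x in 𝓝 x0, s2 / 2 < ρ x :=
      hc.continuousAt.eventually (lt_mem_nhds (show s2 / 2 < ρ x0 by linarith))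
    have g5 : ∀ᶠ x in 𝓝 x0, G x 0 < c1 + ε :=
      hv.continuousAt.eventually (gt_mem_nhds (show G x0 0 < c1 + ε by linarith))
    have g6 : ∀ᶠ x in 𝓝 x0, c1 < G x 0 := hv.continuousAt.eventually (lt_mem_nhds d2)
    have g7 : ∀ᶠ x in 𝓝 x0, G x 0 < c2 := hv.continuousAt.eventually (gt_mem_nhds e1)
    have g8 : ∀ᶠ x in 𝓝 x0, c2 - ε < G x 0 :=
      hv.continuousAt.eventually (lt_mem_nhds (show c2 - ε < G x0 0 by linarith))
    filter_upwards [g1, g2, g3, g4, g5, g6, g7, g8] with x h1 h2 h3 h4 h5 h6 h7 h8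
    refine ⟨s1, s2, c1, c2, ⟨a1, h2, h3, by linarith, by linarith, h6, h7, by linarith⟩,
      fun z hz1 hz2 => ?_⟩
    have h9 : r ≤ dist (h' z) (h' x0) := by
      by_contra h5
      push Not at h5
      exact hball h5 ⟨z, ⟨hz1, hz2⟩, rfl⟩
    linarith [dist_triangle (h' z) (h' x) (h' x0)]
  have hPc : ∀ S : Set K, IsCompact S → (∀ x ∈ S, x ∉ E) → ∃ η > 0, ∀ x ∈ S, P x η := by
    intro S hS hSK
    refine hS.induction_on (p := fun T => ∃ η > 0, ∀ x ∈ T, P x η) ⟨1, one_pos, by simp⟩ ?_ ?_ ?_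
    · rintro s t hst ⟨η, h1, h2⟩
      exact ⟨η, h1, fun x hx => h2 x (hst hx)⟩
    · rintro s t ⟨η, h1, h2⟩ ⟨η', h1', h2'⟩
      refine ⟨min η η', lt_min h1 h1', ?_⟩
      rintro x (hx | hx)
      · exact hPm x _ _ (h2 x hx) (min_le_left _ _)
      · exact hPm x _ _ (h2' x hx) (min_le_right _ _)
    · intro x hx
      obtain ⟨η, h1, h2⟩ := hPloc x (hSK x hx)
      exact ⟨_, mem_nhdsWithin_of_mem_nhds h2, η, h1, fun _ h => h⟩
  obtain ⟨δ', hc', h0', -, hKz', hp', hQ'⟩ := bump E hE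
    (fun z d => d ≤ 1 / 2 * δ z ∧ ∀ x, ρ z ≤ 2 * ρ x → P x (3 * d))
    (fun z d d' h1 _ h2 => ⟨h2.trans h1.1, fun x a => hPm x _ _ (h1.2 x a) (by linarith)⟩)
    (by
      intro z0 hz0
      obtain ⟨d, hd, hd2⟩ := hsm (1 / 2) (by norm_num) z0 hz0
      have hpz := hp z0 hz0
      obtain ⟨η, hη, hη2⟩ := hPc {x | ρ z0 / 4 ≤ ρ x} (isClosed_le continuous_const hc).isCompact
        (fun x hx hxK => by
          have h1 : ρ z0 / 4 ≤ ρ x := hx
          rw [hKz x hxK] at h1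
          linarith)
      refine ⟨min d (η / 3), lt_min hd (by linarith), ?_⟩
      have e2 : ∀ᶠ z in 𝓝 z0, ρ z0 / 2 < ρ z :=
        hc.continuousAt.eventually (lt_mem_nhds (half_lt_self hpz))
      filter_upwards [hd2, e2] with z h1 h2
      refine ⟨(min_le_left _ _).trans h1, fun x hx => ?_⟩
      refine hPm x η _ (hη2 x ?_) (by linarith [min_le_right d (η / 3)])
      show ρ z0 / 4 ≤ ρ x
      linarith)
  refine ⟨⟨h', δ', hh'c, hc', h0', fun x hx => hp' x (hEX x hx)⟩, ?_, ?_, ?_⟩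
  · intro x
    show dist (h' x) (h x) ≤ δ x / 2
    rw [dist_pi_le_iff (by linarith [hδ0 x])]
    intro i
    have h1 : |G x 0 * α i| ≤ 2 * (1 / 4) := by
      rw [abs_mul]
      exact mul_le_mul (hG2 x) (hα1 i) (abs_nonneg _) (by norm_num)
    have h2 := abs_le.1 h1
    have h3 := abs_le.1 (hGh x i)
    have h4 := hρδ x
    have h5 := h0 x
    rw [Real.dist_eq, hh', abs_le]
    constructor <;> nlinarith [h2.1, h2.2, h3.1, h3.2]
  · intro x
    show δ' x ≤ δ x / 2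
    by_cases hx : x ∈ E
    · rw [hKz' x hx]
      linarith [hδ0 x]
    · linarith [(hQ' x hx).1]
  · intro g hg x hx
    have hg' : ∀ z, dist (g z) (h' z) ≤ δ' z := hg
    have hF : IsCompact {z | ρ z ≤ 2 * ρ x} := (isClosed_le hc continuous_const).isCompact
    have hxF : x ∈ {z | ρ z ≤ 2 * ρ x} := by
      show ρ x ≤ 2 * ρ x
      linarith [h0 x]
    obtain ⟨zs, hzs, hmax⟩ := hF.exists_isMaxOn ⟨x, hxF⟩ hc'.continuousOn
    have hm1 : δ' x ≤ δ' zs := hmax hxF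
    have hm2 := hp' x (hEX x hx)
    have hzsK : zs ∉ E := fun h1 => by
      rw [hKz' zs h1] at hm1
      linarith
    obtain ⟨s1, s2, c1, c2, ⟨q1, q2, q3, q4, q5, q6, q7, q8⟩, hs2⟩ := (hQ' zs hzsK).2 x hzs
    refine ⟨{z | (s1 < ρ z ∧ ρ z < s2) ∧ (c1 < G z 0 ∧ G z 0 < c2)},
      IsOpen.and (IsOpen.and (isOpen_lt continuous_const hc) (isOpen_lt hc continuous_const))
        (IsOpen.and (isOpen_lt continuous_const hv) (isOpen_lt hv continuous_const)),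
      ⟨⟨q2, q3⟩, q6, q7⟩, ?_, δ' zs, by linarith, ?_⟩
    · rintro z ⟨-, r1, r2⟩
      have h1 := abs_le.1 (hGu z)
      have h2 := abs_le.1 (hGu x)
      rw [abs_le]
      constructor <;> linarith [h1.1, h1.2, h2.1, h2.2]
    · intro z hz1 hz2
      have h1 : z ∈ {z | (s1 ≤ ρ z ∧ ρ z ≤ s2) ∧ (c1 ≤ G z 0 ∧ G z 0 ≤ c2)} :=
        closure_minimal
          (t := {z | (s1 ≤ ρ z ∧ ρ z ≤ s2) ∧ (c1 ≤ G z 0 ∧ G z 0 ≤ c2)})
          (fun z hz => ⟨⟨hz.1.1.le, hz.1.2.le⟩, hz.2.1.le, hz.2.2.le⟩)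
          (IsClosed.and
            (IsClosed.and (isClosed_le continuous_const hc) (isClosed_le hc continuous_const))
            (IsClosed.and (isClosed_le continuous_const hv) (isClosed_le hv continuous_const)))
          hz1
      obtain ⟨⟨r1, r2⟩, r3, r4⟩ := h1
      have h2 : ρ z = s1 ∨ ρ z = s2 ∨ G z 0 = c1 ∨ G z 0 = c2 := by
        by_contra h2
        push Not at h2
        exact hz2 ⟨⟨lt_of_le_of_ne r1 h2.1.symm, lt_of_le_of_ne r2 h2.2.1⟩,
          lt_of_le_of_ne r3 h2.2.2.1.symm, lt_of_le_of_ne r4 h2.2.2.2⟩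
      have h4 := hs2 z r1 h2
      have h5 : δ' z ≤ δ' zs := hmax (show ρ z ≤ 2 * ρ x by linarith)
      have h7 := dist_triangle4 (h' z) (g z) (g x) (h' x)
      have h8 := hg' z
      have h9 := hg' x
      rw [dist_comm] at h8
      linarith

theorem exists_map [Nonempty K] {X : Set K} {m : ℕ} (hX : HD X m) :
    ∃ H : K → Fin (m + 2) → ℝ, Continuous H ∧ ∀ x ∈ X, ∀ y, y ≠ x → ∃ V : Set K, IsOpen V ∧
      x ∈ V ∧ y ∉ V ∧ ∃ η > 0, ∀ z ∈ closure V, z ∉ V → η ≤ dist (H z) (H x) := by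
  let u : ℕ → K → ℝ := fun j z => min 1 (dist z (TopologicalSpace.denseSeq K j))
  obtain ⟨H, hH, -, h⟩ := iter (X := X)
    (fun n h δ => Cert X (u (Nat.unpair n).1) (1 / (((Nat.unpair n).2 : ℝ) + 1)) h δ)
    (fun n a => step hX _ (by simp only [u]; fun_prop) (fun z => by
        rw [abs_of_nonneg (le_min zero_le_one dist_nonneg)]
        exact min_le_left _ _) Nat.one_div_pos_of_nat
      (by
        rw [div_le_one (by positivity)]
        linarith [Nat.cast_nonneg (α := ℝ) (Nat.unpair n).2]) a)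
    ⟨fun _ => 0, fun _ => 1, continuous_const, continuous_const, fun _ => zero_le_one,
      fun _ _ => one_pos⟩ (fun _ => le_rfl)
  refine ⟨H, hH, fun x hx y hy => ?_⟩
  have hd : 0 < min 1 (dist y x) := lt_min one_pos (dist_pos.2 hy)
  obtain ⟨j, hj⟩ := (TopologicalSpace.denseRange_denseSeq K).exists_dist_lt x
    (show 0 < min 1 (dist y x) / 4 by linarith)
  obtain ⟨l, hl⟩ := exists_nat_one_div_lt (show 0 < min 1 (dist y x) / 4 by linarith)
  obtain ⟨b, hb1, hb2⟩ := h (Nat.pair j l)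
  rw [Nat.unpair_pair] at hb1
  obtain ⟨V, v1, v2, v3, v4⟩ := hb1 H hb2 x hx
  refine ⟨V, v1, v2, fun hyV => ?_, v4⟩
  have h1 := (abs_le.1 (v3 y hyV)).2
  simp only [u] at h1
  have h2 := min_le_right 1 (dist x (TopologicalSpace.denseSeq K j))
  have h3 := dist_triangle_right y x (TopologicalSpace.denseSeq K j)
  have h4 := min_le_left 1 (dist y x)
  have h5 := min_le_right 1 (dist y x)
  rcases min_cases 1 (dist y (TopologicalSpace.denseSeq K j)) with ⟨e, _⟩ | ⟨e, _⟩ <;>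
    rw [e] at h1 <;> linarith

end Pool.Agent.H.MP_068a93_gt
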