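import Pool.Agent.H.MP_068a93_gt.C

set_option autoImplicit false

namespace Pool.Agent.H.MP_068a93_gt
open Set Filter Topology

variable {K : Type} [MetricSpace K] {r : ℕ}

def Rl (S : Set K) (n : ℕ) (a b : K) : Prop := a ∈ S ∧ b ∈ S ∧ dist a b < 1 / ((n : ℝ) + 1)

def Ch (S : Set K) (n : ℕ) : K → K → Prop := Relation.ReflTransGen (Rl S n)

lemma Ch.symm {S : Set K} {n : ℕ} {a b : K} (h : Ch S n a b) : Ch S n b a := by
  induction h with
  | refl => exact Relation.ReflTransGen.refl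
  | tail _ h2 ih =>
    exact Relation.ReflTransGen.head ⟨h2.2.1, h2.1, by rw [dist_comm]; exact h2.2.2⟩ ih

lemma Ch.mono {S T : Set K} {n k : ℕ} {a b : K} (hST : S ⊆ T) (hk : k ≤ n) (h : Ch S n a b) :
    Ch T k a b := by
  induction h with
  | refl => exact Relation.ReflTransGen.refl
  | tail _ h2 ih =>
    exact ih.tail ⟨hST h2.1, hST h2.2.1, h2.2.2.trans_le (Nat.one_div_le_one_div hk)⟩

def DS (H : C(K, Fin r → ℝ)) (x y : K) : Set ℝ :=
  {ρ | 0 ≤ ρ ∧ ∀ n : ℕ, 1 / ((n : ℝ) + 1) ≤ ρ ∨ ∃ S : Set K, x ∈ S ∧ y ∈ S ∧ Ch S n x y ∧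
    ∀ a ∈ S, ∀ b ∈ S, dist (H a) (H b) ≤ ρ}

lemma DS_bdd (H : C(K, Fin r → ℝ)) (x y : K) : BddBelow (DS H x y) := ⟨0, fun _ h => h.1⟩

lemma DS_ne (H : C(K, Fin r → ℝ)) (x y : K) : (DS H x y).Nonempty :=
  ⟨1, zero_le_one, fun n => Or.inl (by
    rw [div_le_one (by positivity)]
    linarith [Nat.cast_nonneg (α := ℝ) n])⟩

lemma DS_symm {H : C(K, Fin r → ℝ)} {x y : K} {ρ : ℝ} (h : ρ ∈ DS H x y) : ρ ∈ DS H y x :=
  ⟨h.1, fun n => (h.2 n).imp id fun ⟨S, a, b, c, d⟩ => ⟨S, b, a, c.symm, d⟩⟩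

lemma DS_add {H : C(K, Fin r → ℝ)} {x y z : K} {s t : ℝ} (h1 : s ∈ DS H x y)
    (h2 : t ∈ DS H y z) : s + t ∈ DS H x z := by
  have hs := h1.1
  have ht := h2.1
  refine ⟨by linarith, fun n => ?_⟩
  rcases h1.2 n with h | ⟨Q, q2, q3, q1, q4⟩
  · left
    linarith
  rcases h2.2 n with h | ⟨R, r2, r3, r1, r4⟩
  · left
    linarith
  refine Or.inr ⟨Q ∪ R, Or.inl q2, Or.inr r3, Relation.ReflTransGen.trans
    (q1.mono subset_union_left le_rfl) (r1.mono subset_union_right le_rfl), ?_⟩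
  rintro a (ha | ha) b (hb | hb)
  · linarith [q4 a ha b hb]
  · linarith [q4 a ha y q3, r4 y r2 b hb, dist_triangle (H a) (H y) (H b)]
  · linarith [r4 a ha y r2, q4 y q3 b hb, dist_triangle (H a) (H y) (H b)]
  · linarith [r4 a ha b hb]

def Pt (_H : C(K, Fin r → ℝ)) : Type := K

noncomputable instance (H : C(K, Fin r → ℝ)) : PseudoMetricSpace (Pt H) where
  dist x y := sInf (DS H x y)
  dist_self x := le_antisymm
    (csInf_le (DS_bdd H x x) ⟨le_rfl, fun _ => Or.inr ⟨{x}, rfl, rfl,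
      Relation.ReflTransGen.refl, by
      rintro a rfl b rfl
      exact (dist_self _).le⟩⟩)
    (le_csInf (DS_ne H x x) fun _ h => h.1)
  dist_comm x y := by
    congr 1
    ext r
    exact ⟨DS_symm, DS_symm⟩
  dist_triangle x y z := by
    have h1 : ∀ s ∈ DS H y z, sInf (DS H x z) - s ≤ sInf (DS H x y) := fun s hs =>
      le_csInf (DS_ne H x y) fun r hr => by
        linarith [csInf_le (DS_bdd H x z) (DS_add hr hs)]
    have h2 : sInf (DS H x z) - sInf (DS H x y) ≤ sInf (DS H y z) :=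
      le_csInf (DS_ne H y z) fun s hs => by linarith [h1 s hs]
    linarith

def toPt (H : C(K, Fin r → ℝ)) (x : K) : Pt H := x

noncomputable def ff (H : C(K, Fin r → ℝ)) (x : K) : SeparationQuotient (Pt H) :=
  SeparationQuotient.mk (toPt H x)

lemma ff_surj (H : C(K, Fin r → ℝ)) : Function.Surjective (ff H) :=
  fun y => SeparationQuotient.surjective_mk y

lemma ff_dist (H : C(K, Fin r → ℝ)) (x y : K) : dist (ff H x) (ff H y) = sInf (DS H x y) :=
  SeparationQuotient.dist_mk _ _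

lemma ff_le {H : C(K, Fin r → ℝ)} {x y : K} {ρ : ℝ} (h : ρ ∈ DS H x y) :
    dist (ff H x) (ff H y) ≤ ρ := by
  rw [ff_dist]
  exact csInf_le (DS_bdd H x y) h

lemma ff_lt {H : C(K, Fin r → ℝ)} {x y : K} {ρ : ℝ} (h : dist (ff H x) (ff H y) < ρ) {n : ℕ}
    (hn : ρ ≤ 1 / ((n : ℝ) + 1)) :
    ∃ S : Set K, x ∈ S ∧ y ∈ S ∧ Ch S n x y ∧ ∀ a ∈ S, dist (H a) (H x) < ρ := by
  rw [ff_dist] at h
  obtain ⟨s, hs, hs'⟩ := exists_lt_of_csInf_lt (DS_ne H x y) h
  rcases hs.2 n with h1 | ⟨S, q1, q2, q3, q4⟩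
  · linarith
  · exact ⟨S, q1, q2, q3, fun a ha => (q4 a ha x q1).trans_lt hs'⟩

lemma ff_cont (H : C(K, Fin r → ℝ)) : Continuous (ff H) := by
  rw [Metric.continuous_iff]
  intro x ε hε
  obtain ⟨δ, hδ, h⟩ := Metric.continuous_iff.1 H.continuous x (ε / 2) (half_pos hε)
  obtain ⟨N, hN⟩ := exists_nat_one_div_lt (half_pos hε)
  refine ⟨min δ (1 / ((N : ℝ) + 1)), lt_min hδ Nat.one_div_pos_of_nat, fun a ha =>
    lt_of_le_of_lt (ff_le (ρ := ε / 2) ⟨(half_pos hε).le, fun n => ?_⟩) (half_lt_self hε)⟩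
  rcases le_total N n with hn | hn
  · exact Or.inl ((Nat.one_div_le_one_div hn).trans hN.le)
  · have h1 := h a (ha.trans_le (min_le_left _ _))
    refine Or.inr ⟨{a, x}, Or.inl rfl, Or.inr rfl, Relation.ReflTransGen.single
      ⟨Or.inl rfl, Or.inr rfl,
        (ha.trans_le (min_le_right _ _)).trans_le (Nat.one_div_le_one_div hn)⟩, ?_⟩
    rintro u (rfl | rfl) v (rfl | rfl)
    · rw [dist_self]
      linarith
    · exact h1.le
    · rw [dist_comm]
      exact h1.le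
    · rw [dist_self]
      linarith

lemma ff_sep [CompactSpace K] (H : C(K, Fin r → ℝ)) {x y : K} {V : Set K} (hV : IsOpen V)
    (hx : x ∈ V) (hy : y ∉ V) {η : ℝ} (hη : 0 < η)
    (h : ∀ z ∈ closure V, z ∉ V → η ≤ dist (H z) (H x)) : ff H x ≠ ff H y := by
  intro e
  have hA : IsCompact (closure V ∩ {z | dist (H z) (H x) ≤ η / 2}) :=
    (isClosed_closure.inter (isClosed_le (by fun_prop) continuous_const)).isCompact
  obtain ⟨θ, hθ, h1⟩ := hA.exists_thickening_subset_open hV (by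
    rintro z ⟨hz1, hz2⟩
    by_contra hz
    have h2 : dist (H z) (H x) ≤ η / 2 := hz2
    linarith [h z hz1 hz])
  obtain ⟨n, hn⟩ := exists_nat_one_div_lt hθ
  obtain ⟨S, -, -, s3, s4⟩ := ff_lt (H := H) (x := x) (y := y)
    (ρ := min (η / 2) (1 / ((n : ℝ) + 1))) (by
      rw [e, dist_self]
      exact lt_min (half_pos hη) Nat.one_div_pos_of_nat) (min_le_right _ _)
  apply hy
  clear hy e
  induction s3 with
  | refl => exact hx
  | tail _ h2 ih =>
    refine h1 (Metric.mem_thickening_iff.2 ⟨_, ⟨subset_closure ih,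
      ((s4 _ h2.1).trans_le (min_le_left _ _)).le⟩, ?_⟩)
    rw [dist_comm]
    exact h2.2.2.trans hn

def Wc (η : ℝ) (c : Fin (r + 1)) : Set (Fin r → ℝ) :=
  {y | ∀ j, 1 / (3 * ((r : ℝ) + 1)) <
    |(y j / η - (c : ℕ) / (r + 1)) - round (y j / η - (c : ℕ) / (r + 1))|}

lemma Wc_open (η : ℝ) (c : Fin (r + 1)) : IsOpen (Wc η c) := by
  simp only [Wc, ofPred_forall]
  exact isOpen_iInter_of_finite fun j => isOpen_lt continuous_const
    (nz_cont.comp (show Continuous fun y : Fin r → ℝ => y j / η - (c : ℕ) / (r + 1) by fun_prop))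

lemma col_uniq {t : ℝ} {c d : Fin (r + 1)}
    (h1 : |(t - (c : ℕ) / (r + 1)) - round (t - (c : ℕ) / (r + 1))| ≤ 1 / (3 * ((r : ℝ) + 1)))
    (h2 : |(t - (d : ℕ) / (r + 1)) - round (t - (d : ℕ) / (r + 1))| ≤ 1 / (3 * ((r : ℝ) + 1))) :
    c = d := by
  generalize round (t - (c : ℕ) / (r + 1)) = n at h1
  generalize round (t - (d : ℕ) / (r + 1)) = k at h2
  have hr : (0 : ℝ) < r + 1 := by positivity
  have e1 : t - (c : ℕ) / (r + 1) - n = (t * (r + 1) - (c : ℕ) - n * (r + 1)) / (r + 1) := by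
    field_simp
  have e2 : t - (d : ℕ) / (r + 1) - k = (t * (r + 1) - (d : ℕ) - k * (r + 1)) / (r + 1) := by
    field_simp
  have e3 : 1 / (3 * ((r : ℝ) + 1)) = (1 / 3) / (r + 1) := by field_simp
  rw [e1, e3, abs_div, abs_of_pos hr, div_le_div_iff_of_pos_right hr, abs_le] at h1
  rw [e2, e3, abs_div, abs_of_pos hr, div_le_div_iff_of_pos_right hr, abs_le] at h2
  have h3 : ((((c : ℕ) : ℤ) + n * (r + 1) - ((d : ℕ) + k * (r + 1)) : ℤ) : ℝ) < (1 : ℤ) := by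
    push_cast
    linarith [h1.1, h2.2]
  have h4 : (((-1 : ℤ)) : ℝ) <
      ((((c : ℕ) : ℤ) + n * (r + 1) - ((d : ℕ) + k * (r + 1)) : ℤ) : ℝ) := by
    push_cast
    linarith [h1.2, h2.1]
  have h5 := Int.cast_lt.1 h3
  have h6 := Int.cast_lt.1 h4
  have h7 : ((c : ℕ) : ℤ) - (d : ℕ) = (k - n) * (r + 1) := by linarith
  have h8 : ((c : ℕ) : ℤ) < r + 1 := by exact_mod_cast c.2
  have h9 : ((d : ℕ) : ℤ) < r + 1 := by exact_mod_cast d.2
  have h10 : (0 : ℤ) ≤ (c : ℕ) := Int.natCast_nonneg _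
  have h11 : (0 : ℤ) ≤ (d : ℕ) := Int.natCast_nonneg _
  have h12 : k - n = 0 := by
    by_contra h12
    rcases lt_or_gt_of_ne h12 with h13 | h13 <;> nlinarith
  rw [h12, zero_mul, sub_eq_zero] at h7
  exact Fin.ext (by exact_mod_cast h7)

lemma Wc_cover (η : ℝ) (y : Fin r → ℝ) : ∃ c, y ∈ Wc η c := by
  by_contra h
  simp only [Wc, mem_ofPred_eq, not_exists, not_forall, not_lt] at h
  choose j hj using h
  have : Function.Injective j := fun c d e => col_uniq (hj c) (e ▸ hj d)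
  have := Fintype.card_le_of_injective j this
  simp at this

lemma floor_same {κ a b : ℝ} (ha : κ < |a - round a|) (hb : κ < |b - round b|)
    (h : |a - b| < κ) : ⌊a⌋ = ⌊b⌋ := by
  have h1 : ∀ a b : ℝ, κ < |a - round a| → |a - b| < κ → ¬ ⌊a⌋ < ⌊b⌋ := by
    intro a b ha h h2
    have h3 := Int.floor_lt.1 h2
    have h4 := Int.floor_le b
    have h5 := round_le a ⌊b⌋
    rw [abs_of_neg (show a - (⌊b⌋ : ℝ) < 0 by linarith)] at h5
    linarith [(abs_lt.1 h).1]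
  exact le_antisymm (not_lt.1 (h1 b a hb (by rwa [abs_sub_comm]))) (not_lt.1 (h1 a b ha h))

theorem covers [CompactSpace K] (H : C(K, Fin r → ℝ)) (j : ℕ)
    (U : Fin j → Set (SeparationQuotient (Pt H))) (hU : ∀ i, IsOpen (U i))
    (hc : (⋃ i, U i) = univ) :
    ∃ V : Fin j → Set (SeparationQuotient (Pt H)), (∀ i, IsOpen (V i)) ∧ (∀ i, V i ⊆ U i) ∧
      (⋃ i, V i) = univ ∧ ∀ y, Set.ncard {i : Fin j | y ∈ V i} ≤ r + 1 := by
  classical
  haveI : CompactSpace (SeparationQuotient (Pt H)) := (ff_surj H).compactSpace (ff_cont H)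
  obtain ⟨lam, hlam, hL⟩ := lebesgue_number_lemma_of_metric isCompact_univ hU hc.ge
  obtain ⟨η, hη⟩ : ∃ η, η = lam / 2 := ⟨_, rfl⟩
  have hη0 : 0 < η := by linarith
  obtain ⟨κ, hκ⟩ : ∃ κ, κ = 1 / (3 * ((r : ℝ) + 1)) := ⟨_, rfl⟩
  have hκ0 : 0 < κ := by rw [hκ]; positivity
  obtain ⟨θ, hθ, hu⟩ := Metric.uniformContinuous_iff.1
    (CompactSpace.uniformContinuous_of_continuous H.continuous) (κ * η) (mul_pos hκ0 hη0)
  obtain ⟨N, hN⟩ := exists_nat_one_div_lt (lt_min hθ hη0)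
  let C : Fin (r + 1) → K → Set K := fun c z0 =>
    {z | z0 ∈ H ⁻¹' Wc η c ∧ Ch (H ⁻¹' Wc η c) N z0 z}
  have hCT : ∀ c z0, C c z0 ⊆ H ⁻¹' Wc η c := by
    rintro c z0 z ⟨h1, h2⟩
    induction h2 with
    | refl => exact h1
    | tail _ h3 _ => exact h3.2.1
  have hCe : ∀ c z0, ∀ z ∈ C c z0, C c z0 = C c z := by
    intro c z0 z hz
    ext w
    exact ⟨fun h => ⟨hCT c z0 hz, Relation.ReflTransGen.trans hz.2.symm h.2⟩,
      fun h => ⟨hz.1, Relation.ReflTransGen.trans hz.2 h.2⟩⟩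
  have hsat : ∀ c z0, ∀ z ∈ C c z0, ∃ ρ > 0, ∀ w, dist (ff H z) (ff H w) < ρ → w ∈ C c z0 := by
    intro c z0 z hz
    obtain ⟨ρ, hρ, h⟩ := Metric.isOpen_iff.1 (Wc_open η c) (H z) (hCT c z0 hz)
    refine ⟨min ρ (1 / ((N : ℝ) + 1)), lt_min hρ Nat.one_div_pos_of_nat, fun w hw => ?_⟩
    obtain ⟨S, -, -, s3, s4⟩ := ff_lt hw (min_le_right _ _)
    exact ⟨hz.1, Relation.ReflTransGen.trans hz.2
      (s3.mono (fun a ha => h ((s4 a ha).trans_le (min_le_left _ _))) le_rfl)⟩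
  have hfl : ∀ c z0, ∀ z ∈ C c z0, ∀ i,
      ⌊H z i / η - (c : ℕ) / (r + 1)⌋ = ⌊H z0 i / η - (c : ℕ) / (r + 1)⌋ := by
    rintro c z0 z ⟨-, h2⟩ i
    induction h2 with
    | refl => rfl
    | tail _ h3 ih =>
      rw [← ih]
      refine (floor_same (h3.1 i) (h3.2.1 i) ?_).symm
      have h4 := (dist_le_pi_dist _ _ i).trans_lt
        (hu (h3.2.2.trans (hN.trans_le (min_le_left _ _))))
      rw [sub_sub_sub_cancel_right, ← sub_div, abs_div, abs_of_pos hη0, div_lt_iff₀ hη0, ← hκ]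
      rwa [Real.dist_eq] at h4
  have hch : ∀ c z0, ∀ z ∈ C c z0, Ch (C c z0) N z0 z := by
    rintro c z0 z ⟨h1, h2⟩
    induction h2 with
    | refl => exact Relation.ReflTransGen.refl
    | tail h3 h4 ih => exact ih.tail ⟨⟨h1, h3⟩, ⟨h1, h3.tail h4⟩, h4.2.2⟩
  have hdi : ∀ c z0, ∀ z ∈ C c z0, dist (ff H z) (ff H z0) < lam := by
    intro c z0 z hz
    refine lt_of_le_of_lt (ff_le (ρ := η) ⟨hη0.le, fun n => ?_⟩) (by linarith)
    rcases le_total N n with hn | hn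
    · exact Or.inl ((Nat.one_div_le_one_div hn).trans (hN.le.trans (min_le_right _ _)))
    refine Or.inr ⟨C c z0, hz, ⟨hz.1, Relation.ReflTransGen.refl⟩,
      (hch c z0 z hz).symm.mono Subset.rfl hn, fun a ha b hb => ?_⟩
    rw [dist_pi_le_iff hη0.le]
    intro i
    have h1 := Int.abs_sub_lt_one_of_floor_eq_floor ((hfl c z0 a ha i).trans (hfl c z0 b hb i).symm)
    rw [sub_sub_sub_cancel_right, ← sub_div, abs_div, abs_of_pos hη0, div_lt_one hη0] at h1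
    rw [Real.dist_eq]
    exact h1.le
  have hidx : ∀ c z0, ∃ i, ff H '' C c z0 ⊆ U i := by
    intro c z0
    obtain ⟨i, hi⟩ := hL (ff H z0) (mem_univ _)
    refine ⟨i, ?_⟩
    rintro _ ⟨z, hz, rfl⟩
    exact hi (hdi c z0 z hz)
  let idx : Set K → Option (Fin j) := fun D =>
    if h : ∃ i, ff H '' D ⊆ U i then some h.choose else none
  have hidx2 : ∀ D i, idx D = some i → ff H '' D ⊆ U i := by
    intro D i h
    simp only [idx] at h
    split_ifs at h with h1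
    rw [← Option.some_injective _ h]
    exact h1.choose_spec
  refine ⟨fun i => ⋃ c, ⋃ z0, ⋃ (_ : idx (C c z0) = some i), ff H '' C c z0, ?_, ?_, ?_, ?_⟩
  · refine fun i => isOpen_iUnion fun c => isOpen_iUnion fun z0 => isOpen_iUnion fun _ => ?_
    rw [Metric.isOpen_iff]
    rintro _ ⟨x, hx, rfl⟩
    obtain ⟨ρ, hρ, h⟩ := hsat c z0 x hx
    refine ⟨ρ, hρ, fun y hy => ?_⟩
    obtain ⟨z, rfl⟩ := ff_surj H y
    exact ⟨z, h z (by rw [dist_comm]; exact hy), rfl⟩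
  · intro i
    exact iUnion_subset fun c => iUnion_subset fun z0 => iUnion_subset fun h => hidx2 _ _ h
  · rw [eq_univ_iff_forall]
    intro y
    obtain ⟨z, rfl⟩ := ff_surj H y
    obtain ⟨c, hc⟩ := Wc_cover η (H z)
    simp only [mem_iUnion]
    exact ⟨(hidx c z).choose, c, z, dif_pos (hidx c z), z, ⟨hc, Relation.ReflTransGen.refl⟩, rfl⟩
  · intro y
    obtain ⟨z, rfl⟩ := ff_surj H y
    have h1 : ∀ i ∈ {i : Fin j | ff H z ∈
        ⋃ c, ⋃ z0, ⋃ (_ : idx (C c z0) = some i), ff H '' C c z0},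
        ∃ c, idx (C c z) = some i := by
      intro i hi
      simp only [mem_ofPred_eq, mem_iUnion] at hi
      obtain ⟨c, z0, h2, w, hw, e⟩ := hi
      obtain ⟨ρ, hρ, h⟩ := hsat c z0 w hw
      refine ⟨c, ?_⟩
      rw [← hCe c z0 z (h z (by rw [e, dist_self]; exact hρ))]
      exact h2
    choose! g hg using h1
    have h2 := Set.ncard_le_ncard_of_injOn (t := (univ : Set (Fin (r + 1)))) g
      (fun _ _ => mem_univ _) (fun a ha b hb e => by
        have h3 := hg a ha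
        rw [e, hg b hb] at h3
        exact (Option.some_injective _ h3).symm) finite_univ
    simpa using h2

lemma ff_emb [CompactSpace K] (H : C(K, Fin r → ℝ)) {X : Type} [TopologicalSpace X] {c : X → K}
    (hc : IsEmbedding c) (h : ∀ x y, y ≠ c x → ff H (c x) ≠ ff H y) :
    IsEmbedding (ff H ∘ c) := by
  refine ⟨?_, fun a b e => hc.injective (by_contra fun hne => h a (c b) (Ne.symm hne) e)⟩
  rw [isInducing_iff_nhds]
  intro x
  refine le_antisymm (((ff_cont H).comp hc.continuous).tendsto x).le_comap ?_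
  rw [hc.isInducing.nhds_eq_comap]
  intro s hs
  obtain ⟨t, ht, hts⟩ := mem_comap.1 hs
  obtain ⟨O, hOt, hO, hxO⟩ := mem_nhds_iff.1 ht
  have h1 : IsClosed (ff H '' Oᶜ) := (hO.isClosed_compl.isCompact.image (ff_cont H)).isClosed
  refine mem_comap.2 ⟨(ff H '' Oᶜ)ᶜ, h1.isOpen_compl.mem_nhds ?_, fun a ha => hts (hOt ?_)⟩
  · rintro ⟨y, hy, e⟩
    exact h x y (fun e' => hy (e' ▸ hxO)) e.symm
  · by_contra h2
    exact ha ⟨c a, h2, rfl⟩

lemma hd_of {X : Type} [TopologicalSpace X] {c : X → K} (hc : IsEmbedding c)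
    (hd : DenseRange c) {m : ℕ}
    (h : ∀ (j : ℕ) (U : Fin j → Set X), (∀ i, IsOpen (U i)) → (⋃ i, U i) = univ →
      ∃ V : Fin j → Set X, (∀ i, IsOpen (V i)) ∧ (∀ i, V i ⊆ U i) ∧ (⋃ i, V i) = univ ∧
        ∀ x : X, Set.ncard {i : Fin j | x ∈ V i} ≤ m + 1) : HD (range c) m := by
  intro j U hU hcov
  obtain ⟨V, v1, v2, v3, v4⟩ := h j (fun i => c ⁻¹' U i) (fun i => (hU i).preimage hc.continuous)
    (by
      rw [eq_univ_iff_forall]
      intro x
      obtain ⟨i, hi⟩ := mem_iUnion.1 (hcov (mem_range_self x))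
      exact mem_iUnion.2 ⟨i, hi⟩)
  choose W w1 w2 using fun i => hc.isInducing.isOpen_iff.1 (v1 i)
  refine ⟨fun i => W i ∩ U i, fun i => (w1 i).inter (hU i), fun i => inter_subset_right, ?_, ?_⟩
  · rintro _ ⟨x, rfl⟩
    obtain ⟨i, hi⟩ := mem_iUnion.1 (v3.ge (mem_univ x))
    exact mem_iUnion.2 ⟨i, (w2 i).ge hi, v2 i hi⟩
  · intro z
    have h1 : IsOpen (⋂ i ∈ {i | z ∈ W i}, W i) := (toFinite _).isOpen_biInter fun i _ => w1 i
    obtain ⟨x, hx⟩ := hd.exists_mem_open h1 ⟨z, mem_iInter₂.2 fun i hi => hi⟩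
    refine le_trans (Set.ncard_le_ncard (fun i hi => ?_) (toFinite _)) (v4 x)
    exact (w2 i).le (mem_iInter₂.1 hx i hi.1)

end Pool.Agent.H.MP_068a93_gt
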